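import Pool.Agent.H888R2.KT.N9
import Pool.Agent.H888R2.KT.N10
import Pool.Agent.H888R2.KT.N9a

/-!
# Reduction to even functions (helper444)

For an even log-concave density the Poincare inequality for even functions implies the one for odd
functions, if the second moments are bounded. Discrete Bochner inequality: the derivatives of an
odd function are even; their means are controlled by the covariance.
-/

set_option autoImplicit false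

namespace Run7.h444.ER

open MeasureTheory Set
open scoped ENNReal InnerProductSpace
open Pool.Agent.H212R2.KLS (mu Bdd)
open Pool.Agent.H888R2.KT
open Pool.Agent.H888R2.KT.N9x
open Pool.Agent.H888R2.KT.N5x

variable {κ : Type} [Fintype κ] {ρ : EuclideanSpace ℝ κ → ℝ}

theorem hs_eq [DecidableEq κ] (v : EuclideanSpace ℝ κ → ℝ) (x : EuclideanSpace ℝ κ) : hs v x =
    ∑ i, ‖fderiv ℝ (fun z => fderiv ℝ v z (EuclideanSpace.single i 1)) x‖ ^ 2 := by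
  unfold hs
  refine Finset.sum_congr rfl fun i _ => ?_
  have e : @EuclideanSpace.single κ ℝ _ (fun a b => Classical.propDecidable (a = b)) i (1:ℝ) =
      EuclideanSpace.single i (1:ℝ) := by
    congr 1
    exact Subsingleton.elim _ _
  rw [e]

theorem St0 (hρ : LC ρ) (L : ℝ) (e : Fin 0 → EuclideanSpace ℝ κ) : St e L ρ := by
  intro x y
  have h1 := hρ.logc x y (1 / 2) (by norm_num) (by norm_num)
  have h2 : (1 - 1 / 2 : ℝ) • x + (1 / 2 : ℝ) • y = (1 / 2 : ℝ) • (x + y) := by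
    rw [smul_add]; norm_num
  rw [h2] at h1
  have h3 : (1 - 1 / 2 : ℝ) = 1 / 2 := by norm_num
  rw [h3] at h1
  have h4 : 0 ≤ ρ x ^ (1 / 2 : ℝ) * ρ y ^ (1 / 2 : ℝ) :=
    mul_nonneg (Real.rpow_nonneg (hρ.nonneg x) _) (Real.rpow_nonneg (hρ.nonneg y) _)
  have h5 := pow_le_pow_left₀ h4 h1 2
  rw [mul_pow] at h5
  have h6 : ∀ a : ℝ, 0 ≤ a → (a ^ (1 / 2 : ℝ)) ^ 2 = a := by
    intro a ha
    rw [← Real.sqrt_eq_rpow, Real.sq_sqrt ha]
  rw [h6 _ (hρ.nonneg x), h6 _ (hρ.nonneg y)] at h5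
  simpa using h5

/-- the mean of the gradient of the smoothed function -/
theorem mean_grad (hρ : LC ρ) (h : ℝ) (hh : 0 < h) (u : EuclideanSpace ℝ κ → ℝ)
    (hu : ContDiff ℝ 1 u) (w : EuclideanSpace ℝ κ) :
    h * (∫ x, fderiv ℝ (gs h (pst h ρ u)) x w ∂(mu ρ)) ^ 2 ≤
      (∫ x, ‖fderiv ℝ u x‖ ^ 2 ∂(mu ρ)) * ∫ x, ⟪x, w⟫_ℝ ^ 2 ∂(mu ρ) := by
  have huc := hu.continuous
  have hlc : Continuous fun x : EuclideanSpace ℝ κ => ⟪x, w⟫_ℝ := by fun_prop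
  obtain ⟨hg2, B, hB⟩ := pst_smooth hρ h hh u huc
  have hg1 : ContDiff ℝ 1 (pst h ρ u) := hg2.of_le (by norm_num)
  obtain ⟨-, hvd⟩ := gs_deriv h hh (pst h ρ u) hg1 B (fun y => (hB y).1) (fun y => (hB y).2.1)
  have hB0 : 0 ≤ B := (abs_nonneg _).trans (hB 0).1
  obtain ⟨φ, hφ⟩ : ∃ φ : EuclideanSpace ℝ κ → ℝ, φ = fun y => fderiv ℝ (pst h ρ u) y w := ⟨_, rfl⟩
  have hφc : Continuous φ := by
    rw [hφ]
    exact (hg1.continuous_fderiv (by norm_num)).clm_apply continuous_const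
  have hφb : ∀ y, |φ y| ≤ B * ‖w‖ := by
    intro y
    rw [hφ, ← Real.norm_eq_abs]
    exact ((fderiv ℝ (pst h ρ u) y).le_opNorm w).trans
      (mul_le_mul_of_nonneg_right (hB y).2.1 (norm_nonneg _))
  obtain ⟨hi1, -, hf1⟩ := fub hρ h hh (fun _ => 1) φ continuous_const hφc _ hφb
  simp only [N9ax.pst_one hρ h hh, one_mul] at hi1 hf1
  have e1 : ∫ x, fderiv ℝ (gs h (pst h ρ u)) x w ∂(mu ρ) = (gc κ h)⁻¹ * ∫ y, φ y * zz h ρ y := by
    rw [← hf1]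
    refine integral_congr_ae (Filter.Eventually.of_forall fun x => ?_)
    simp only
    rw [hvd x w, hφ]
  obtain ⟨m, hm⟩ : ∃ m, m = ∫ x, fderiv ℝ (gs h (pst h ρ u)) x w ∂(mu ρ) := ⟨_, rfl⟩
  rw [← hm] at e1 ⊢
  have hgc0 : 0 < (gc κ h)⁻¹ := inv_pos.2 (gc_pos (κ := κ) h hh).1
  have hdc : Continuous fun x => ‖fderiv ℝ u x‖ ^ 2 := grad_cont hu
  have hD := N9ax.fub1 hρ h hh (fun x => ‖fderiv ℝ u x‖ ^ 2) hdc
  have hl2 : Continuous fun x : EuclideanSpace ℝ κ => ⟪x, w⟫_ℝ ^ 2 := hlc.pow 2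
  have hE := N9ax.fub1 hρ h hh (fun x => ⟪x, w⟫_ℝ ^ 2) hl2
  have hquad : ∀ t : ℝ, 0 ≤ (∫ x, ⟪x, w⟫_ℝ ^ 2 ∂(mu ρ)) * (t * t) + (-(2 * h * m)) * t +
      h * ∫ x, ‖fderiv ℝ u x‖ ^ 2 ∂(mu ρ) := by
    intro t
    have hpt : ∀ y, 2 * t * h * (φ y * zz h ρ y) ≤
        h * (pst h ρ (fun x => ‖fderiv ℝ u x‖ ^ 2) y * zz h ρ y) +
          t ^ 2 * (pst h ρ (fun x => ⟪x, w⟫_ℝ ^ 2) y * zz h ρ y) := by
      intro y
      have hz := (zz_pos hρ h hh y).1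
      have h1 := var_contr hρ h hh u hu y
      have h2 := (pst_deriv hρ h hh u huc y).2 w
      have h3 := var_nonneg hρ h hh y (fun x => u x + (-t) * ⟪x, w⟫_ℝ) (huc.add (hlc.const_mul _))
      have e2 : (fun x => (u x + (-t) * ⟪x, w⟫_ℝ) ^ 2) =
          fun x => (u x ^ 2 + (-2 * t) * (u x * ⟪x, w⟫_ℝ)) + t ^ 2 * ⟪x, w⟫_ℝ ^ 2 := by
        funext x; ring
      rw [e2, pst_add hρ h hh y (fun x => u x ^ 2 + (-2 * t) * (u x * ⟪x, w⟫_ℝ))
        (fun x => t ^ 2 * ⟪x, w⟫_ℝ ^ 2) ((huc.pow 2).add ((huc.mul hlc).const_mul _))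
        (hl2.const_mul _), pst_add hρ h hh y (fun x => u x ^ 2)
        (fun x => (-2 * t) * (u x * ⟪x, w⟫_ℝ)) (huc.pow 2) ((huc.mul hlc).const_mul _),
        pst_smul, pst_smul, pst_add hρ h hh y u (fun x => (-t) * ⟪x, w⟫_ℝ) huc
        (hlc.const_mul _), pst_smul] at h3
      have h4 : φ y * h = pst h ρ (fun x => u x * ⟪x, w⟫_ℝ) y -
          pst h ρ u y * pst h ρ (fun x => ⟪x, w⟫_ℝ) y := by
        rw [hφ]
        simp only
        rw [h2]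
        field_simp
      have h5 : 2 * t * h * φ y ≤ h * pst h ρ (fun x => ‖fderiv ℝ u x‖ ^ 2) y +
          t ^ 2 * pst h ρ (fun x => ⟪x, w⟫_ℝ ^ 2) y := by
        have e3 : 2 * t * h * φ y = 2 * t * (φ y * h) := by ring
        rw [e3, h4]
        nlinarith [sq_nonneg (t * pst h ρ (fun x => ⟪x, w⟫_ℝ) y)]
      have h6 := mul_le_mul_of_nonneg_right h5 hz.le
      linarith
    have hint := integral_mono (hi1.const_mul (2 * t * h)) ((hD.1.const_mul h).add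
      (hE.1.const_mul (t ^ 2))) hpt
    have e4 := integral_add (hD.1.const_mul h) (hE.1.const_mul (t ^ 2))
    simp only [Pi.add_apply] at hint
    rw [e4, integral_const_mul, integral_const_mul, integral_const_mul] at hint
    have h7 := mul_le_mul_of_nonneg_left hint hgc0.le
    rw [hD.2, hE.2, e1]
    linarith
  have hdis := discrim_le_zero hquad
  unfold discrim at hdis
  have h8 : 4 * h * (h * m ^ 2) ≤ 4 * h * ((∫ x, ‖fderiv ℝ u x‖ ^ 2 ∂(mu ρ)) *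
      ∫ x, ⟪x, w⟫_ℝ ^ 2 ∂(mu ρ)) := by linarith
  exact le_of_mul_le_mul_left h8 (by positivity)

/-- the total mean gradient -/
theorem mean_grad_sum [DecidableEq κ] (hρ : LC ρ) (h : ℝ) (hh : 0 < h)
    (u : EuclideanSpace ℝ κ → ℝ) (hu : ContDiff ℝ 1 u) (s : ℝ) (hs0 : 0 ≤ s)
    (hcov : ∀ w : EuclideanSpace ℝ κ, ∫ x, ⟪x, w⟫_ℝ ^ 2 ∂(mu ρ) ≤
      s * ‖w‖ ^ 2 * (mu ρ).real univ)
    (hv : ContDiff ℝ 1 (gs h (pst h ρ u))) :
    h * ∑ i : κ, (∫ x, fderiv ℝ (gs h (pst h ρ u)) x (EuclideanSpace.single i 1) ∂(mu ρ)) ^ 2 ≤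
      s * (mu ρ).real univ * ∫ x, ‖fderiv ℝ u x‖ ^ 2 ∂(mu ρ) := by
  obtain ⟨m, hm⟩ : ∃ m : EuclideanSpace ℝ κ, ∀ i, m i =
      ∫ x, fderiv ℝ (gs h (pst h ρ u)) x (EuclideanSpace.single i 1) ∂(mu ρ) :=
    ⟨WithLp.toLp 2 fun i =>
      ∫ x, fderiv ℝ (gs h (pst h ρ u)) x (EuclideanSpace.single i 1) ∂(mu ρ), fun i => rfl⟩
  have hsum : ∑ i : κ, (∫ x, fderiv ℝ (gs h (pst h ρ u)) x
      (EuclideanSpace.single i 1) ∂(mu ρ)) ^ 2 = ‖m‖ ^ 2 := by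
    rw [EuclideanSpace.real_norm_sq_eq]
    refine Finset.sum_congr rfl fun i _ => ?_
    rw [hm]
  rw [hsum]
  have hmw : ∫ x, fderiv ℝ (gs h (pst h ρ u)) x m ∂(mu ρ) = ‖m‖ ^ 2 := by
    have e : ∀ x, fderiv ℝ (gs h (pst h ρ u)) x m =
        ∑ i : κ, m i * fderiv ℝ (gs h (pst h ρ u)) x (EuclideanSpace.single i 1) := by
      intro x
      have e1 : m = ∑ i : κ, m i • EuclideanSpace.single i (1 : ℝ) := by
        ext j
        simp [Pi.single_apply]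
      conv_lhs => rw [e1]
      rw [map_sum]
      refine Finset.sum_congr rfl fun i _ => ?_
      rw [map_smul, smul_eq_mul]
    simp only [e]
    rw [integral_finsetSum _ fun i _ => (int_cont hρ (dir_cont hv _)).const_mul _,
      EuclideanSpace.real_norm_sq_eq]
    refine Finset.sum_congr rfl fun i _ => ?_
    rw [integral_const_mul, ← hm]
    ring
  have h1 := mean_grad hρ h hh u hu m
  rw [hmw] at h1
  have hD0 : 0 ≤ ∫ x, ‖fderiv ℝ u x‖ ^ 2 ∂(mu ρ) := integral_nonneg fun x => by positivity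
  have h2 := h1.trans (mul_le_mul_of_nonneg_left (hcov m) hD0)
  by_cases hm0 : ‖m‖ ^ 2 = 0
  · rw [hm0, mul_zero]
    have := mass_pos hρ
    positivity
  · have hpos : 0 < ‖m‖ ^ 2 := lt_of_le_of_ne (sq_nonneg _) (Ne.symm hm0)
    have h3 : ‖m‖ ^ 2 * (h * ‖m‖ ^ 2) ≤ ‖m‖ ^ 2 * (s * (mu ρ).real univ *
        ∫ x, ‖fderiv ℝ u x‖ ^ 2 ∂(mu ρ)) := by
      calc _ = h * (‖m‖ ^ 2) ^ 2 := by ring
        _ ≤ _ := h2
        _ = _ := by ring
    exact le_of_mul_le_mul_left h3 hpos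

theorem neg_iso (x : EuclideanSpace ℝ κ) :
    (LinearIsometryEquiv.neg ℝ : EuclideanSpace ℝ κ ≃ₗᵢ[ℝ] EuclideanSpace ℝ κ) x = -x := by
  simp

theorem odd_equiv (hρ : LC ρ) (he : ∀ x, ρ (-x) = ρ x) (h : ℝ) (u : EuclideanSpace ℝ κ → ℝ)
    (hu : ∀ x, u (-x) = -u x) (x : EuclideanSpace ℝ κ) :
    gs h (pst h ρ u) (-x) = -gs h (pst h ρ u) x := by
  obtain ⟨g, hg⟩ : ∃ g : EuclideanSpace ℝ κ ≃ₗᵢ[ℝ] EuclideanSpace ℝ κ, ∀ x, g x = -x :=
    ⟨LinearIsometryEquiv.neg ℝ, neg_iso⟩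
  have hgρ : ∀ x, ρ (g x) = ρ x := fun x => by rw [hg, he]
  have hp : ∀ y, pst h ρ u (-y) = -pst h ρ u y := by
    intro y
    have hz := N10x.zz_eq hρ.meas h g hgρ y
    rw [hg] at hz
    unfold pst
    rw [hz, ← N10x.int_comp hρ.meas g hgρ]
    have e : ∀ x, u (g x) * Real.exp (-(‖g x - -y‖ ^ 2 / (2 * h))) =
        -(u x * Real.exp (-(‖x - y‖ ^ 2 / (2 * h)))) := by
      intro x
      rw [← hg y, N10x.nrm, hg, hu]
      ring
    simp only [e]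
    rw [integral_neg]
    ring
  unfold gs
  rw [← N10x.int_comp_vol g]
  have e : ∀ y, pst h ρ u (g y) * Real.exp (-(‖-x - g y‖ ^ 2 / (2 * h))) =
      -(pst h ρ u y * Real.exp (-(‖x - y‖ ^ 2 / (2 * h)))) := by
    intro y
    rw [← hg x, N10x.nrm, hg, hp]
    ring
  simp only [e]
  rw [integral_neg]
  ring

theorem even_dir (v : EuclideanSpace ℝ κ → ℝ) (hv : ContDiff ℝ 2 v)
    (he : ∀ x, v (-x) = -v x) (w z : EuclideanSpace ℝ κ) :
    fderiv ℝ v (-z) w = fderiv ℝ v z w := by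
  have hd : Differentiable ℝ v := hv.differentiable (by norm_num)
  have h1 : HasFDerivAt (fun x => v (-x))
      ((fderiv ℝ v (-z)).comp (-(ContinuousLinearMap.id ℝ (EuclideanSpace ℝ κ)))) z :=
    (hd (-z)).hasFDerivAt.comp z ((hasFDerivAt_id z).neg)
  have h2 : (fun x => v (-x)) = fun x => -v x := funext he
  rw [h2] at h1
  have h3 := h1.fderiv
  have h4 := ((hd z).hasFDerivAt.neg).fderiv
  have h5 : fderiv ℝ (fun x => -v x) z = -fderiv ℝ v z := h4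
  rw [h5] at h3
  have h6 := congrArg (fun L => L w) h3
  simp only [ContinuousLinearMap.comp_apply] at h6
  have h7 : (-(ContinuousLinearMap.id ℝ (EuclideanSpace ℝ κ))) w = -w := rfl
  rw [h7, map_neg] at h6
  have h8 : (-fderiv ℝ v z) w = -(fderiv ℝ v z w) := rfl
  rw [h8] at h6
  linarith

/-- **Odd functions.** -/
theorem odd (hρ : LC ρ) (he : ∀ x, ρ (-x) = ρ x) (L s : ℝ) (hL : 0 < L) (hs0 : 0 ≤ s)
    (hcov : ∀ w : EuclideanSpace ℝ κ, ∫ x, ⟪x, w⟫_ℝ ^ 2 ∂(mu ρ) ≤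
      s * ‖w‖ ^ 2 * (mu ρ).real univ)
    (heven : ∀ f : EuclideanSpace ℝ κ → ℝ, ContDiff ℝ 1 f → (∀ x, f (-x) = f x) →
      ∃ c : ℝ, ∫ x, (f x - c) ^ 2 ∂(mu ρ) ≤ L * ∫ x, ‖fderiv ℝ f x‖ ^ 2 ∂(mu ρ))
    (u : EuclideanSpace ℝ κ → ℝ) (hu0 : ContDiff ℝ 1 u) (hodd : ∀ x, u (-x) = -u x) :
    W ρ u ≤ (4 * L + 8 * s) * ∫ x, ‖fderiv ℝ u x‖ ^ 2 ∂(mu ρ) := by
  classical
  obtain ⟨R, hR0, hR⟩ : ∃ R : ℝ, 0 < R ∧ ∀ x, R < ‖x‖ → ρ x = 0 := by
    obtain ⟨R₀, hR₀⟩ := hρ.bdd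
    exact ⟨max R₀ 1, lt_of_lt_of_le one_pos (le_max_right _ _), fun x hx =>
      hR₀ x (lt_of_le_of_lt (le_max_left _ _) hx)⟩
  have hM := mass_pos hρ
  obtain ⟨h, hhd⟩ : ∃ h, h = L + 2 * s := ⟨_, rfl⟩
  have hh : 0 < h := by rw [hhd]; positivity
  -- contraction of the Dirichlet form
  have hD : ∀ u : EuclideanSpace ℝ κ → ℝ, (∀ x, u (-x) = -u x) → ContDiff ℝ 1 u →
      ContDiff ℝ 2 (gs h (pst h ρ u)) ∧
      2 * ∫ x, ‖fderiv ℝ (gs h (pst h ρ u)) x‖ ^ 2 ∂(mu ρ) ≤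
        ∫ x, ‖fderiv ℝ u x‖ ^ 2 ∂(mu ρ) := by
    intro u hu hu1
    obtain ⟨h1, h2⟩ := key hρ (fun j : Fin 0 => (j.elim0 : EuclideanSpace ℝ κ))
      ⟨fun j => j.elim0, fun j => j.elim0⟩ L hL (St0 hρ L _) h hh u hu1
    refine ⟨h1, ?_⟩
    obtain ⟨v, hv⟩ : ∃ v, v = gs h (pst h ρ u) := ⟨_, rfl⟩
    have h1' : ContDiff ℝ 1 (gs h (pst h ρ u)) := h1.of_le (by norm_num)
    have hm := mean_grad_sum hρ h hh u hu1 s hs0 hcov h1'
    have hvo := odd_equiv hρ he h u hu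
    rw [← hv] at h1 h2 h1' hm hvo ⊢
    have hdi : ∀ i : κ, ContDiff ℝ 1 (fun z => fderiv ℝ v z (EuclideanSpace.single i (1 : ℝ))) :=
      fun i => (h1.fderiv_right (m := 1) (by norm_num)).clm_apply contDiff_const
    have e1 : ∫ x, ‖fderiv ℝ v x‖ ^ 2 ∂(mu ρ) =
        ∑ i : κ, ∫ x, (fderiv ℝ v x (EuclideanSpace.single i 1)) ^ 2 ∂(mu ρ) := by
      rw [← integral_finsetSum]
      · refine integral_congr_ae (Filter.Eventually.of_forall fun x => ?_)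
        exact N8x.norm_sq_clm _
      · intro i _
        exact int_cont hρ ((hdi i).continuous.pow 2)
    have e2 : ∫ x, hs v x ∂(mu ρ) = ∑ i : κ,
        ∫ x, ‖fderiv ℝ (fun z => fderiv ℝ v z (EuclideanSpace.single i 1)) x‖ ^ 2 ∂(mu ρ) := by
      rw [← integral_finsetSum]
      · refine integral_congr_ae (Filter.Eventually.of_forall fun x => ?_)
        exact hs_eq v x
      · intro i _
        exact int_cont hρ (grad_cont (hdi i))
    have e3 : ∫ x, ‖fderiv ℝ v x‖ ^ 2 ∂(mu ρ) -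
        (∑ i : κ, (∫ x, fderiv ℝ v x (EuclideanSpace.single i 1) ∂(mu ρ)) ^ 2) /
          (mu ρ).real univ ≤ L * ∫ x, hs v x ∂(mu ρ) := by
      rw [e1, e2, Finset.mul_sum, Finset.sum_div, ← Finset.sum_sub_distrib]
      refine Finset.sum_le_sum fun i _ => ?_
      obtain ⟨c, hc⟩ := heven _ (hdi i) (fun z => even_dir v h1 hvo _ z)
      exact (W_le hρ (hdi i).continuous c).trans hc
    have e4 : ∫ x, (‖fderiv ℝ v x‖ ^ 2 + h * hs v x +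
        h / L * ∑ j : Fin 0, (fderiv ℝ v x ((fun j : Fin 0 =>
          (j.elim0 : EuclideanSpace ℝ κ)) j)) ^ 2) ∂(mu ρ) =
        ∫ x, ‖fderiv ℝ v x‖ ^ 2 ∂(mu ρ) + h * ∫ x, hs v x ∂(mu ρ) := by
      have i2 : Integrable (fun x => h * hs v x) (mu ρ) :=
        int_cont hρ (continuous_const.mul (hs_cont h1))
      rw [← integral_const_mul, ← integral_add (int_cont hρ (grad_cont h1')) i2]
      refine integral_congr_ae (Filter.Eventually.of_forall fun x => ?_)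
      simp
    rw [e4] at h2
    obtain ⟨A, hA⟩ : ∃ A, A = ∫ x, ‖fderiv ℝ v x‖ ^ 2 ∂(mu ρ) := ⟨_, rfl⟩
    obtain ⟨D, hDD⟩ : ∃ D, D = ∫ x, ‖fderiv ℝ u x‖ ^ 2 ∂(mu ρ) := ⟨_, rfl⟩
    obtain ⟨H, hH⟩ : ∃ H, H = ∫ x, hs v x ∂(mu ρ) := ⟨_, rfl⟩
    obtain ⟨S, hS⟩ : ∃ S, S = ∑ i : κ, (∫ x, fderiv ℝ v x
      (EuclideanSpace.single i 1) ∂(mu ρ)) ^ 2 := ⟨_, rfl⟩
    obtain ⟨M, hMd⟩ : ∃ M, M = (mu ρ).real univ := ⟨_, rfl⟩
    rw [← hA, ← hDD, ← hH] at h2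
    rw [← hS, ← hMd, ← hDD] at hm
    rw [← hA, ← hS, ← hH, ← hMd] at e3
    rw [← hA, ← hDD]
    rw [← hMd] at hM
    have h3 : h * (S / M) ≤ s * D := by
      have : h * (S / M) = (h * S) / M := by ring
      rw [this, div_le_iff₀ hM]
      linarith
    have h4 : h * (A - L * H) ≤ h * (S / M) := mul_le_mul_of_nonneg_left (by linarith) hh.le
    have h5 : L * (A + h * H) ≤ L * D := mul_le_mul_of_nonneg_left h2 hL.le
    have h6 : (L + h) * A ≤ (L + s) * D := by nlinarith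
    rw [hhd] at h6
    have h7 : (L + s) * (2 * A) ≤ (L + s) * D := by linarith
    exact le_of_mul_le_mul_left h7 (by positivity)
  -- induction
  have hind : ∀ m : ℕ, ∀ u : EuclideanSpace ℝ κ → ℝ, (∀ x, u (-x) = -u x) → ContDiff ℝ 1 u →
      W ρ u ≤ (4 * h + (2 * R ^ 2 - 4 * h) * (1 / 2) ^ m) * ∫ x, ‖fderiv ℝ u x‖ ^ 2 ∂(mu ρ) := by
    intro m
    induction m with
    | zero =>
      intro u _ hu1
      obtain ⟨c, hc⟩ := ball_poincare hρ R hR0 hR u hu1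
      have := W_le hρ hu1.continuous c
      calc W ρ u ≤ _ := this
        _ ≤ _ := hc
        _ = _ := by ring
    | succ m ih =>
      intro u hu hu1
      obtain ⟨h1, h2⟩ := hD u hu hu1
      have h1' : ContDiff ℝ 1 (gs h (pst h ρ u)) := h1.of_le (by norm_num)
      have h3 := ih _ (odd_equiv hρ he h u hu) h1'
      obtain ⟨h4, h5⟩ := l2step hρ h hh u hu1
      have h6 : W ρ u ≤ W ρ (gs h (pst h ρ u)) +
          2 * h * ∫ x, ‖fderiv ℝ u x‖ ^ 2 ∂(mu ρ) := by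
        unfold W
        rw [h4]
        linarith
      have hcoef : 0 ≤ 4 * h + (2 * R ^ 2 - 4 * h) * (1 / 2 : ℝ) ^ m := by
        have hp0 : (0 : ℝ) < (1 / 2) ^ m := by positivity
        have hp1 : (1 / 2 : ℝ) ^ m ≤ 1 := pow_le_one₀ (by norm_num) (by norm_num)
        have : 4 * h + (2 * R ^ 2 - 4 * h) * (1 / 2 : ℝ) ^ m =
          4 * h * (1 - (1 / 2 : ℝ) ^ m) + 2 * R ^ 2 * (1 / 2 : ℝ) ^ m := by ring
        rw [this]
        have h7 : 0 ≤ 1 - (1 / 2 : ℝ) ^ m := by linarith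
        positivity
      have h8 : ∫ x, ‖fderiv ℝ (gs h (pst h ρ u)) x‖ ^ 2 ∂(mu ρ) ≤
          1 / 2 * ∫ x, ‖fderiv ℝ u x‖ ^ 2 ∂(mu ρ) := by linarith
      have h9 := mul_le_mul_of_nonneg_left h8 hcoef
      calc W ρ u ≤ _ := h6
        _ ≤ (4 * h + (2 * R ^ 2 - 4 * h) * (1 / 2) ^ m) *
            (1 / 2 * ∫ x, ‖fderiv ℝ u x‖ ^ 2 ∂(mu ρ)) +
            2 * h * ∫ x, ‖fderiv ℝ u x‖ ^ 2 ∂(mu ρ) := by linarith
        _ = _ := by rw [pow_succ]; ring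
  have hlim : Filter.Tendsto (fun m : ℕ => (4 * h + (2 * R ^ 2 - 4 * h) * (1 / 2 : ℝ) ^ m) *
      ∫ x, ‖fderiv ℝ u x‖ ^ 2 ∂(mu ρ)) Filter.atTop
      (nhds ((4 * h + (2 * R ^ 2 - 4 * h) * 0) * ∫ x, ‖fderiv ℝ u x‖ ^ 2 ∂(mu ρ))) := by
    have h1 : Filter.Tendsto (fun m : ℕ => (1 / 2 : ℝ) ^ m) Filter.atTop (nhds 0) :=
      tendsto_pow_atTop_nhds_zero_of_lt_one (by norm_num) (by norm_num)
    exact ((h1.const_mul _).const_add _).mul_const _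
  rw [mul_zero, add_zero] at hlim
  have h10 := ge_of_tendsto' hlim fun m => hind m u hodd hu0
  rw [hhd] at h10
  calc _ ≤ _ := h10
    _ = _ := by ring

end Run7.h444.ER
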