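import Mathlib

/-!
# The inequality of Cheeger for even functions (helper444)

If all symmetric sets satisfy a linear isoperimetric inequality, then the even `C¹` functions satisfy
the Poincare inequality.
-/

set_option autoImplicit false

namespace Run7.h444.ER

open MeasureTheory Set Filter Topology Metric
open scoped ENNReal

section

variable {F : Type*} [NormedAddCommGroup F] [NormedSpace ℝ F] [MeasurableSpace F] [BorelSpace F]

/-- lower Minkowski content -/
noncomputable def bd (μ : Measure F) (S : Set F) : ℝ≥0∞ :=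
  liminf (fun ε : ℝ => (μ (thickening ε S) - μ S) / ENNReal.ofReal ε) (𝓝[>] 0)

omit [NormedSpace ℝ F] in
theorem int_of_cont {μ : Measure F} [IsFiniteMeasure μ] {K : Set F} (hK : IsCompact K)
    (hμ : μ Kᶜ = 0) {g : F → ℝ} (hg : Continuous g) : Integrable g μ := by
  have h1 : IntegrableOn g K μ := hg.continuousOn.integrableOn_compact hK
  rw [IntegrableOn] at h1
  have h2 : μ.restrict K = μ := Measure.restrict_eq_self_of_ae_mem (by
    rw [ae_iff]
    exact hμ)
  rwa [h2] at h1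

omit [MeasurableSpace F] [BorelSpace F] in
/-- uniform slope estimate -/
theorem slope {K : Set F} (hK : IsCompact K) {g : F → ℝ} (hg : ContDiff ℝ 1 g) {η : ℝ}
    (hη : 0 < η) : ∃ ε₀ : ℝ, 0 < ε₀ ∧ ∀ x ∈ K, ∀ y, dist y x < ε₀ →
    g y ≤ g x + dist y x * (‖fderiv ℝ g x‖ + η) := by
  have hc : Continuous (fderiv ℝ g) := hg.continuous_fderiv (by norm_num)
  have h1 := hK.uniformContinuousAt_of_continuousAt (fderiv ℝ g) (fun a _ => hc.continuousAt)
    (Metric.dist_mem_uniformity hη)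
  obtain ⟨ε₀, hε₀, h2⟩ := Metric.mem_uniformity_dist.1 h1
  refine ⟨ε₀, hε₀, fun x hx y hy => ?_⟩
  have h3 : ∀ z ∈ ball x ε₀, ‖fderiv ℝ g z‖ ≤ ‖fderiv ℝ g x‖ + η := by
    intro z hz
    have h4 := h2 (show dist x z < ε₀ by rw [dist_comm]; exact hz) hx
    have h5 : dist (fderiv ℝ g x) (fderiv ℝ g z) < η := h4
    rw [dist_eq_norm] at h5
    have h6 : ‖fderiv ℝ g z‖ ≤ ‖fderiv ℝ g x‖ + ‖fderiv ℝ g x - fderiv ℝ g z‖ := by
      have := norm_sub_norm_le (fderiv ℝ g z) (fderiv ℝ g x)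
      rw [norm_sub_rev] at this
      linarith
    linarith
  have h7 := (convex_ball x ε₀).norm_image_sub_le_of_norm_fderiv_le
    (fun z _ => (hg.differentiable (by norm_num)) z) h3 (mem_ball_self hε₀) (show y ∈ ball x ε₀ from hy)
  rw [Real.norm_eq_abs, ← dist_eq_norm] at h7
  have h8 := (le_abs_self _).trans h7
  linarith

theorem coarea {μ : Measure F} [IsFiniteMeasure μ] {K : Set F} (hK : IsCompact K)
    (hμ : μ Kᶜ = 0) {g : F → ℝ} (hg : ContDiff ℝ 1 g) (hg0 : ∀ x, 0 ≤ g x) (t : ℝ≥0∞)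
    (H : ∀ r : ℝ, 0 < r → t * μ {x | r < g x} ≤ bd μ {x | r < g x}) :
    t * ∫⁻ x, ENNReal.ofReal (g x) ∂μ ≤ ∫⁻ x, ENNReal.ofReal ‖fderiv ℝ g x‖ ∂μ := by
  have hgc := hg.continuous
  have hgi : Integrable g μ := int_of_cont hK hμ hgc
  have hfc : Continuous fun x => ‖fderiv ℝ g x‖ := (hg.continuous_fderiv (by norm_num)).norm
  have hanti : Antitone fun r : ℝ => μ {x | r < g x} := fun a b hab =>
    measure_mono fun x hx => lt_of_le_of_lt hab hx
  have hlay : ∫⁻ x, ENNReal.ofReal (g x) ∂μ = ∫⁻ r in Ioi (0 : ℝ), μ {x | r < g x} :=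
    lintegral_eq_lintegral_meas_lt μ (Eventually.of_forall hg0) hgi.aemeasurable
  have hfin : ∫⁻ r in Ioi (0 : ℝ), μ {x | r < g x} ≠ ⊤ := by
    rw [← hlay]
    exact hgi.lintegral_lt_top.ne
  obtain ⟨e, he0, het⟩ : ∃ e : ℕ → ℝ, (∀ n, 0 < e n) ∧ Tendsto e atTop (𝓝 0) :=
    ⟨fun n => 1 / ((n : ℝ) + 1), fun n => by positivity, tendsto_one_div_add_atTop_nhds_zero_nat⟩
  have het' : Tendsto e atTop (𝓝[>] 0) :=
    tendsto_nhdsWithin_iff.2 ⟨het, Eventually.of_forall he0⟩
  obtain ⟨f, hf⟩ : ∃ f : ℕ → ℝ → ℝ≥0∞, ∀ n r, f n r =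
    (μ (thickening (e n) {x | r < g x}) - μ {x | r < g x}) / ENNReal.ofReal (e n) :=
    ⟨fun n r => (μ (thickening (e n) {x | r < g x}) - μ {x | r < g x}) / ENNReal.ofReal (e n),
      fun n r => rfl⟩
  have hant2 : ∀ ε : ℝ, Antitone fun r : ℝ => μ (thickening ε {x | r < g x}) := fun ε a b hab =>
    measure_mono (thickening_subset_of_subset ε fun x hx => lt_of_le_of_lt hab hx)
  have hfm : ∀ n, Measurable (f n) := by
    intro n
    have : f n = fun r => (μ (thickening (e n) {x | r < g x}) - μ {x | r < g x}) /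
      ENNReal.ofReal (e n) := funext (hf n)
    rw [this]
    exact ((hant2 (e n)).measurable.sub hanti.measurable).div_const _
  have h1 : ∀ r : ℝ, 0 < r → t * μ {x | r < g x} ≤ liminf (fun n => f n r) atTop := by
    intro r hr
    refine (H r hr).trans ?_
    unfold bd
    have h2 : (fun n => f n r) = (fun ε : ℝ => (μ (thickening ε {x | r < g x}) -
      μ {x | r < g x}) / ENNReal.ofReal ε) ∘ e := funext fun n => hf n r
    rw [h2]
    exact liminf_le_liminf_of_le (u := fun ε : ℝ => (μ (thickening ε {x | r < g x}) -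
      μ {x | r < g x}) / ENNReal.ofReal ε) (f := 𝓝[>] 0) (g := map e atTop) het'
  have h3 : t * ∫⁻ x, ENNReal.ofReal (g x) ∂μ ≤
      liminf (fun n => ∫⁻ r in Ioi (0 : ℝ), f n r) atTop := by
    rw [hlay, ← lintegral_const_mul _ hanti.measurable]
    refine le_trans ?_ (lintegral_liminf_le hfm)
    refine setLIntegral_mono' measurableSet_Ioi fun r hr => h1 r hr
  refine h3.trans ?_
  refine ENNReal.le_of_forall_pos_le_add fun η hη _ => ?_
  obtain ⟨η', hη', hη2⟩ : ∃ η' : ℝ, 0 < η' ∧ ENNReal.ofReal η' * μ univ ≤ η := by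
    have hη0 : (0 : ℝ) < η := NNReal.coe_pos.2 hη
    have hm0 : 0 ≤ μ.real univ := measureReal_nonneg
    refine ⟨(η : ℝ) / (μ.real univ + 1), by positivity, ?_⟩
    have e1 : μ univ = ENNReal.ofReal (μ.real univ) := by
      rw [ofReal_measureReal]
    rw [e1, ← ENNReal.ofReal_mul (by positivity), ← ENNReal.ofReal_coe_nnreal]
    refine ENNReal.ofReal_le_ofReal ?_
    rw [div_mul_eq_mul_div, div_le_iff₀ (by positivity)]
    nlinarith
  obtain ⟨ε₀, hε₀, hsl⟩ := slope hK hg hη'
  refine liminf_le_of_frequently_le' ?_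
  refine Eventually.frequently ?_
  filter_upwards [het.eventually_lt_const hε₀] with n hn
  have hen := he0 n
  have hG : Integrable (fun x => g x + e n * (‖fderiv ℝ g x‖ + η')) μ :=
    int_of_cont hK hμ (by fun_prop)
  have hG0 : ∀ x, 0 ≤ g x + e n * (‖fderiv ℝ g x‖ + η') := fun x => by
    have := hg0 x
    positivity
  have hlay2 := lintegral_eq_lintegral_meas_lt μ (Eventually.of_forall hG0) hG.aemeasurable
  have h4 : ∀ r : ℝ, μ (thickening (e n) {x | r < g x}) ≤
      μ {x | r < g x + e n * (‖fderiv ℝ g x‖ + η')} := by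
    intro r
    refine (measure_mono (fun x hx => ?_ : _ ⊆ {x | r < g x + e n * (‖fderiv ℝ g x‖ + η')} ∪ Kᶜ)).trans
      ((measure_union_le _ _).trans_eq (by rw [hμ, add_zero]))
    by_cases hxK : x ∈ K
    · left
      obtain ⟨y, hy, hxy⟩ := mem_thickening_iff.1 hx
      have h5 := hsl x hxK y (by rw [dist_comm]; exact hxy.trans hn)
      have h6 : dist y x * (‖fderiv ℝ g x‖ + η') ≤ e n * (‖fderiv ℝ g x‖ + η') :=
        mul_le_mul_of_nonneg_right (by rw [dist_comm]; exact hxy.le) (by positivity)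
      have hy' : r < g y := hy
      show r < _
      linarith
    · exact Or.inr hxK
  have h5 : ∫⁻ r in Ioi (0 : ℝ), f n r = ((∫⁻ r in Ioi (0 : ℝ), μ (thickening (e n) {x | r < g x})) -
      ∫⁻ r in Ioi (0 : ℝ), μ {x | r < g x}) / ENNReal.ofReal (e n) := by
    have : ∀ r, f n r = (μ (thickening (e n) {x | r < g x}) - μ {x | r < g x}) *
      (ENNReal.ofReal (e n))⁻¹ := fun r => by rw [hf, div_eq_mul_inv]
    simp only [this]
    have hm2 : Measurable fun r => μ (thickening (e n) {x | r < g x}) - μ {x | r < g x} :=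
      (hant2 (e n)).measurable.sub hanti.measurable
    rw [lintegral_mul_const _ hm2,
      lintegral_sub hanti.measurable hfin (Eventually.of_forall fun r => measure_mono
        (self_subset_thickening hen _)), div_eq_mul_inv]
  have h6 : ∫⁻ r in Ioi (0 : ℝ), μ (thickening (e n) {x | r < g x}) ≤
      ∫⁻ x, ENNReal.ofReal (g x + e n * (‖fderiv ℝ g x‖ + η')) ∂μ := by
    rw [hlay2]
    exact lintegral_mono fun r => h4 r
  have h7 : ∫⁻ x, ENNReal.ofReal (g x + e n * (‖fderiv ℝ g x‖ + η')) ∂μ =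
      ∫⁻ x, ENNReal.ofReal (g x) ∂μ + ENNReal.ofReal (e n) *
        (∫⁻ x, ENNReal.ofReal ‖fderiv ℝ g x‖ ∂μ + ENNReal.ofReal η' * μ univ) := by
    have : ∀ x, ENNReal.ofReal (g x + e n * (‖fderiv ℝ g x‖ + η')) = ENNReal.ofReal (g x) +
        ENNReal.ofReal (e n) * (ENNReal.ofReal ‖fderiv ℝ g x‖ + ENNReal.ofReal η') := fun x => by
      rw [ENNReal.ofReal_add (hg0 x) (by positivity), ENNReal.ofReal_mul hen.le,
        ENNReal.ofReal_add (norm_nonneg _) hη'.le]
    simp only [this]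
    rw [lintegral_add_left hgc.measurable.ennreal_ofReal, lintegral_const_mul _
      (hfc.measurable.ennreal_ofReal.add_const _), lintegral_add_right _ measurable_const,
      lintegral_const]
  rw [h5, ENNReal.div_le_iff (by simpa using hen) ENNReal.ofReal_ne_top]
  rw [← hlay]
  refine tsub_le_iff_left.2 (h6.trans ?_)
  rw [h7]
  refine add_le_add_right ?_ _
  rw [mul_comm]
  exact mul_le_mul_left (add_le_add_right hη2 _) _

/-- median -/
theorem median (μ : Measure F) [IsProbabilityMeasure μ] {K : Set F} (hK : IsCompact K)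
    (hμ : μ Kᶜ = 0) {f : F → ℝ} (hf : Continuous f) :
    ∃ m : ℝ, μ {x | m < f x} ≤ μ {x | m < f x}ᶜ ∧ μ {x | f x < m} ≤ μ {x | f x < m}ᶜ := by
  obtain ⟨C, hC⟩ := hK.exists_bound_of_continuousOn hf.continuousOn
  have hhalf : ∀ S : Set F, MeasurableSet S → (μ S ≤ μ Sᶜ ↔ μ S ≤ 1 / 2) := by
    intro S hS
    have h1 := measure_add_measure_compl (μ := μ) hS
    rw [measure_univ] at h1
    have hS1 : μ S ≠ ⊤ := measure_ne_top μ S
    have hS2 : μ Sᶜ ≠ ⊤ := measure_ne_top μ Sᶜ
    rw [← ENNReal.toReal_le_toReal hS1 hS2, ← ENNReal.toReal_le_toReal hS1 (by norm_num)]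
    have h2 := congrArg ENNReal.toReal h1
    rw [ENNReal.toReal_add hS1 hS2, ENNReal.toReal_one] at h2
    have h3 : (1 / 2 : ℝ≥0∞).toReal = 1 / 2 := by norm_num
    rw [h3]
    constructor <;> intro h <;> linarith
  obtain ⟨A, hA⟩ : ∃ A : Set ℝ, A = {r : ℝ | μ {x | r < f x} ≤ 1 / 2} := ⟨_, rfl⟩
  have hne : A.Nonempty := by
    refine ⟨C, ?_⟩
    rw [hA]
    have hsub : {x | C < f x} ⊆ Kᶜ := by
      intro x hx hxK
      have := hC x hxK
      rw [Real.norm_eq_abs] at this
      have h2 := (abs_le.1 this).2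
      have hx' : C < f x := hx
      linarith
    have : μ {x | C < f x} = 0 := measure_mono_null hsub hμ
    show μ {x | C < f x} ≤ 1 / 2
    rw [this]
    exact bot_le
  have hbdd : BddBelow A := by
    refine ⟨-C - 1, fun r hr => ?_⟩
    rw [hA] at hr
    by_contra hlt
    rw [not_le] at hlt
    have hsub : {x | r < f x}ᶜ ⊆ Kᶜ := by
      intro x hx hxK
      have := hC x hxK
      rw [Real.norm_eq_abs] at this
      have h2 := (abs_le.1 this).1
      have h3 : ¬ r < f x := hx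
      exact h3 (by linarith)
    have h1 : μ {x | r < f x}ᶜ = 0 := measure_mono_null hsub hμ
    have h2 := measure_add_measure_compl (μ := μ) (s := {x | r < f x})
      (measurableSet_lt measurable_const hf.measurable)
    rw [h1, add_zero, measure_univ] at h2
    have h3 : μ {x | r < f x} ≤ 1 / 2 := hr
    rw [h2] at h3
    norm_num at h3
  have hup : ∀ r ∈ A, ∀ r', r ≤ r' → r' ∈ A := by
    intro r hr r' hrr
    rw [hA] at hr ⊢
    exact (measure_mono fun x hx => lt_of_le_of_lt hrr hx).trans hr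
  refine ⟨sInf A, ?_, ?_⟩
  · rw [hhalf _ (measurableSet_lt measurable_const hf.measurable)]
    have h1 : {x | sInf A < f x} = ⋃ n : ℕ, {x | sInf A + 1 / ((n : ℝ) + 1) < f x} := by
      ext x
      simp only [mem_ofPred_eq, mem_iUnion]
      constructor
      · intro hx
        obtain ⟨n, hn⟩ := exists_nat_one_div_lt (sub_pos.2 hx)
        exact ⟨n, by linarith⟩
      · rintro ⟨n, hn⟩
        have : (0 : ℝ) < 1 / ((n : ℝ) + 1) := by positivity
        linarith
    have hmono : Monotone fun n : ℕ => {x | sInf A + 1 / ((n : ℝ) + 1) < f x} := by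
      intro a b hab x hx
      have h2 : 1 / ((b : ℝ) + 1) ≤ 1 / ((a : ℝ) + 1) := Nat.one_div_le_one_div hab
      have hx' : sInf A + 1 / ((a : ℝ) + 1) < f x := hx
      show sInf A + 1 / ((b : ℝ) + 1) < f x
      linarith
    rw [h1, hmono.measure_iUnion]
    refine iSup_le fun n => ?_
    have hpos : (0 : ℝ) < 1 / ((n : ℝ) + 1) := by positivity
    obtain ⟨r, hr, hr2⟩ := exists_lt_of_csInf_lt hne (show sInf A < sInf A + 1 / ((n : ℝ) + 1) by
      linarith)
    have h9 : sInf A + 1 / ((n : ℝ) + 1) ∈ {r : ℝ | μ {x | r < f x} ≤ 1 / 2} :=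
      hA ▸ hup r hr _ hr2.le
    exact h9
  · rw [hhalf _ (measurableSet_lt hf.measurable measurable_const)]
    have h1 : {x | f x < sInf A} = ⋃ n : ℕ, {x | f x ≤ sInf A - 1 / ((n : ℝ) + 1)} := by
      ext x
      simp only [mem_ofPred_eq, mem_iUnion]
      constructor
      · intro hx
        obtain ⟨n, hn⟩ := exists_nat_one_div_lt (sub_pos.2 hx)
        exact ⟨n, by linarith⟩
      · rintro ⟨n, hn⟩
        have : (0 : ℝ) < 1 / ((n : ℝ) + 1) := by positivity
        linarith
    have hmono : Monotone fun n : ℕ => {x | f x ≤ sInf A - 1 / ((n : ℝ) + 1)} := by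
      intro a b hab x hx
      have h2 : 1 / ((b : ℝ) + 1) ≤ 1 / ((a : ℝ) + 1) := Nat.one_div_le_one_div hab
      have hx' : f x ≤ sInf A - 1 / ((a : ℝ) + 1) := hx
      show f x ≤ sInf A - 1 / ((b : ℝ) + 1)
      linarith
    rw [h1, hmono.measure_iUnion]
    refine iSup_le fun n => ?_
    have hpos : (0 : ℝ) < 1 / ((n : ℝ) + 1) := by positivity
    obtain ⟨r, hr⟩ : ∃ r, r = sInf A - 1 / ((n : ℝ) + 1) := ⟨_, rfl⟩
    rw [← hr]
    have hnot : r ∉ A := fun h => by
      have := csInf_le hbdd h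
      linarith
    rw [hA] at hnot
    have h3 : 1 / 2 < μ {x | r < f x} := not_le.1 hnot
    have h4 : {x | f x ≤ r} = {x | r < f x}ᶜ := by
      ext x
      simp
    have h5 := measure_add_measure_compl (μ := μ) (s := {x | r < f x})
      (measurableSet_lt measurable_const hf.measurable)
    rw [h4]
    rw [measure_univ] at h5
    by_contra hlt
    rw [not_le] at hlt
    have h6 := ENNReal.add_lt_add h3 hlt
    rw [h5] at h6
    have h7 : (1 / 2 : ℝ≥0∞) + 1 / 2 = 1 := by
      rw [one_div]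
      exact ENNReal.inv_two_add_inv_two
    rw [h7] at h6
    exact lt_irrefl _ h6

theorem hd_max (x : ℝ) : HasDerivAt (fun y : ℝ => (max y 0) ^ 2) (2 * max x 0) x := by
  rcases lt_trichotomy x 0 with hx | hx | hx
  · have h1 : (fun y : ℝ => (max y 0) ^ 2) =ᶠ[𝓝 x] fun _ => (0 : ℝ) := by
      filter_upwards [Iio_mem_nhds hx] with y hy
      rw [max_eq_right (le_of_lt hy)]
      norm_num
    rw [max_eq_right hx.le, mul_zero]
    exact (hasDerivAt_const x (0 : ℝ)).congr_of_eventuallyEq h1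
  · subst hx
    rw [max_self, mul_zero]
    have h1 : HasDerivWithinAt (fun y : ℝ => (max y 0) ^ 2) 0 (Iic 0) 0 := by
      refine (hasDerivWithinAt_const (0 : ℝ) (Iic 0) (0 : ℝ)).congr (fun y hy => ?_) (by simp)
      rw [max_eq_right hy]
      norm_num
    have h2 : HasDerivWithinAt (fun y : ℝ => (max y 0) ^ 2) 0 (Ici 0) 0 := by
      have h3 : HasDerivWithinAt (fun y : ℝ => y ^ 2) 0 (Ici 0) 0 := by
        have := (hasDerivAt_pow 2 (0 : ℝ)).hasDerivWithinAt (s := Ici 0)
        simpa using this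
      refine h3.congr (fun y hy => ?_) (by simp)
      rw [max_eq_left hy]
    have h3 := h1.union h2
    rw [Iic_union_Ici, hasDerivWithinAt_univ] at h3
    exact h3
  · have h1 : (fun y : ℝ => (max y 0) ^ 2) =ᶠ[𝓝 x] fun y => y ^ 2 := by
      filter_upwards [Ioi_mem_nhds hx] with y hy
      rw [max_eq_left (le_of_lt hy)]
    rw [max_eq_left hx.le]
    have := (hasDerivAt_pow 2 x).congr_of_eventuallyEq h1
    simpa using this

theorem cd_max : ContDiff ℝ 1 fun y : ℝ => (max y 0) ^ 2 := by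
  rw [contDiff_one_iff_deriv]
  refine ⟨fun x => (hd_max x).differentiableAt, ?_⟩
  have : deriv (fun y : ℝ => (max y 0) ^ 2) = fun x => 2 * max x 0 := funext fun x =>
    (hd_max x).deriv
  rw [this]
  fun_prop

/-- **even functions** -/
theorem even_poinc (μ : Measure F) [IsProbabilityMeasure μ] {K : Set F} (hK : IsCompact K)
    (hμ : μ Kᶜ = 0) (t : ℝ) (ht : 0 < t)
    (H : ∀ S : Set F, MeasurableSet S → (∀ x, x ∈ S → -x ∈ S) →
      ENNReal.ofReal t * min (μ S) (μ Sᶜ) ≤ bd μ S)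
    {f : F → ℝ} (hf : ContDiff ℝ 1 f) (he : ∀ x, f (-x) = f x) :
    ∃ m : ℝ, ∫ x, (f x - m) ^ 2 ∂μ ≤ 4 / t ^ 2 * ∫ x, ‖fderiv ℝ f x‖ ^ 2 ∂μ := by
  obtain ⟨m, hm1, hm2⟩ := median μ hK hμ hf.continuous
  have hfc := hf.continuous
  have hfd : Continuous fun x => ‖fderiv ℝ f x‖ := (hf.continuous_fderiv (by norm_num)).norm
  have key : ∀ φ : F → ℝ, ContDiff ℝ 1 φ → (∀ x, φ (-x) = φ x) →
      (μ {x | 0 < φ x} ≤ μ {x | 0 < φ x}ᶜ) →
      t * ∫ x, (max (φ x) 0) ^ 2 ∂μ ≤ ∫ x, 2 * max (φ x) 0 * ‖fderiv ℝ φ x‖ ∂μ := by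
    intro φ hφ hφe hφm
    obtain ⟨g, hg⟩ : ∃ g : F → ℝ, g = fun x => (max (φ x) 0) ^ 2 := ⟨_, rfl⟩
    have hg1 : ContDiff ℝ 1 g := by rw [hg]; exact cd_max.comp hφ
    have hg0 : ∀ x, 0 ≤ g x := fun x => by rw [hg]; positivity
    have hgd : ∀ x, fderiv ℝ g x = (2 * max (φ x) 0) • fderiv ℝ φ x := by
      intro x
      rw [hg]
      exact ((hd_max (φ x)).comp_hasFDerivAt x
        ((hφ.differentiable (by norm_num)) x).hasFDerivAt).fderiv
    have hgn : ∀ x, ‖fderiv ℝ g x‖ = 2 * max (φ x) 0 * ‖fderiv ℝ φ x‖ := by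
      intro x
      rw [hgd, norm_smul, Real.norm_eq_abs, abs_of_nonneg (by positivity)]
    have h1 := coarea hK hμ hg1 hg0 (ENNReal.ofReal t) (fun r hr => by
      have hms : MeasurableSet {x | r < g x} :=
        measurableSet_lt measurable_const hg1.continuous.measurable
      have h2 := H {x | r < g x} hms (fun x hx => by
        have hx' : r < g x := hx
        show r < g (-x)
        rw [hg] at hx' ⊢
        simpa only [hφe] using hx')
      have h3 : {x | r < g x} ⊆ {x | 0 < φ x} := by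
        intro x hx
        have hx' : r < g x := hx
        rw [hg] at hx'
        by_contra hn
        have hn' : φ x ≤ 0 := not_lt.1 hn
        simp only [max_eq_right hn'] at hx'
        norm_num at hx'
        linarith
      have h4 : μ {x | r < g x} ≤ μ {x | r < g x}ᶜ :=
        (measure_mono h3).trans (hφm.trans (measure_mono (compl_subset_compl.2 h3)))
      rwa [min_eq_left h4] at h2)
    have hgi : Integrable g μ := int_of_cont hK hμ hg1.continuous
    have hgd' : Continuous fun x => ‖fderiv ℝ g x‖ := (hg1.continuous_fderiv (by norm_num)).norm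
    have hgi' : Integrable (fun x => ‖fderiv ℝ g x‖) μ := int_of_cont hK hμ hgd'
    rw [← ofReal_integral_eq_lintegral_ofReal hgi (Eventually.of_forall hg0),
      ← ofReal_integral_eq_lintegral_ofReal hgi' (Eventually.of_forall fun x => norm_nonneg _),
      ← ENNReal.ofReal_mul ht.le, ENNReal.ofReal_le_ofReal_iff
        (integral_nonneg fun x => norm_nonneg _)] at h1
    simp only [hgn] at h1
    rw [hg] at h1
    exact h1
  have hc1 : ContDiff ℝ 1 fun x => f x - m := hf.sub contDiff_const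
  have hc2 : ContDiff ℝ 1 fun x => m - f x := contDiff_const.sub hf
  have hd1 : ∀ x, fderiv ℝ (fun x => f x - m) x = fderiv ℝ f x := fun x => fderiv_sub_const m
  have hd2 : ∀ x, fderiv ℝ (fun x => m - f x) x = -fderiv ℝ f x := fun x => fderiv_const_sub m
  have k1 := key (fun x => f x - m) hc1 (fun x => by rw [he]) (by
    have : {x | 0 < f x - m} = {x | m < f x} := by ext x; simp
    rw [this]
    exact hm1)
  have k2 := key (fun x => m - f x) hc2 (fun x => by rw [he]) (by
    have : {x | 0 < m - f x} = {x | f x < m} := by ext x; simp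
    rw [this]
    exact hm2)
  simp only [hd1] at k1
  simp only [hd2, norm_neg] at k2
  have i1 : Integrable (fun x => (f x - m) ^ 2) μ := int_of_cont hK hμ (by fun_prop)
  have i2 : Integrable (fun x => ‖fderiv ℝ f x‖ ^ 2) μ := int_of_cont hK hμ (by fun_prop)
  have i3 : Integrable (fun x => (max (f x - m) 0) ^ 2) μ := int_of_cont hK hμ (by fun_prop)
  have i4 : Integrable (fun x => (max (m - f x) 0) ^ 2) μ := int_of_cont hK hμ (by fun_prop)
  have i5 : Integrable (fun x => 2 * max (f x - m) 0 * ‖fderiv ℝ f x‖) μ :=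
    int_of_cont hK hμ (by fun_prop)
  have i6 : Integrable (fun x => 2 * max (m - f x) 0 * ‖fderiv ℝ f x‖) μ :=
    int_of_cont hK hμ (by fun_prop)
  refine ⟨m, ?_⟩
  have e1 : ∫ x, (f x - m) ^ 2 ∂μ = ∫ x, (max (f x - m) 0) ^ 2 ∂μ +
      ∫ x, (max (m - f x) 0) ^ 2 ∂μ := by
    rw [← integral_add i3 i4]
    refine integral_congr_ae (Eventually.of_forall fun x => ?_)
    simp only
    rcases le_total (f x) m with h | h
    · rw [max_eq_right (by linarith : f x - m ≤ 0), max_eq_left (by linarith : 0 ≤ m - f x)]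
      ring
    · rw [max_eq_left (by linarith : 0 ≤ f x - m), max_eq_right (by linarith : m - f x ≤ 0)]
      ring
  have e2 : t * ∫ x, (f x - m) ^ 2 ∂μ ≤ ∫ x, (t / 2 * (f x - m) ^ 2 +
      2 / t * ‖fderiv ℝ f x‖ ^ 2) ∂μ := by
    rw [e1, mul_add]
    refine (add_le_add k1 k2).trans ?_
    rw [← integral_add i5 i6]
    refine integral_mono (i5.add i6) ((i1.const_mul _).add (i2.const_mul _)) fun x => ?_
    have h1 : 2 * max (f x - m) 0 * ‖fderiv ℝ f x‖ + 2 * max (m - f x) 0 * ‖fderiv ℝ f x‖ =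
        2 * |f x - m| * ‖fderiv ℝ f x‖ := by
      rcases le_total (f x) m with h | h
      · rw [max_eq_right (by linarith : f x - m ≤ 0), max_eq_left (by linarith : 0 ≤ m - f x),
          abs_of_nonpos (by linarith)]
        ring
      · rw [max_eq_left (by linarith : 0 ≤ f x - m), max_eq_right (by linarith : m - f x ≤ 0),
          abs_of_nonneg (by linarith)]
        ring
    rw [h1]
    have h2 : t / 2 * (f x - m) ^ 2 + 2 / t * ‖fderiv ℝ f x‖ ^ 2 -
        2 * |f x - m| * ‖fderiv ℝ f x‖ =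
        1 / (2 * t) * (t * |f x - m| - 2 * ‖fderiv ℝ f x‖) ^ 2 := by
      rw [← sq_abs (f x - m)]
      field_simp
      ring
    have h3 : 0 ≤ 1 / (2 * t) * (t * |f x - m| - 2 * ‖fderiv ℝ f x‖) ^ 2 := by positivity
    linarith
  rw [integral_add (i1.const_mul _) (i2.const_mul _), integral_const_mul, integral_const_mul] at e2
  have e3 : t / 2 * ∫ x, (f x - m) ^ 2 ∂μ ≤ 2 / t * ∫ x, ‖fderiv ℝ f x‖ ^ 2 ∂μ := by linarith
  have e4 := mul_le_mul_of_nonneg_left e3 (by positivity : 0 ≤ 2 / t)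
  have e5 : 2 / t * (t / 2 * ∫ x, (f x - m) ^ 2 ∂μ) = ∫ x, (f x - m) ^ 2 ∂μ := by
    field_simp
  have e6 : 2 / t * (2 / t * ∫ x, ‖fderiv ℝ f x‖ ^ 2 ∂μ) =
      4 / t ^ 2 * ∫ x, ‖fderiv ℝ f x‖ ^ 2 ∂μ := by
    field_simp
    ring
  rw [e5, e6] at e4
  exact e4

end

end Run7.h444.ER
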