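import Pool.Agent.Run7.h444.ER1
import Pool.Agent.Run7.h444.ER2

/-!
# The Poincare inequality from the one for even functions (helper444)
-/

set_option autoImplicit false

namespace Run7.h444.ER

open MeasureTheory Set
open scoped ENNReal InnerProductSpace
open Pool.Agent.H212R2.KLS (mu Bdd)
open Pool.Agent.H888R2.KT
open Pool.Agent.H888R2.KT.N9x
open Pool.Agent.H888R2.KT.N5x

variable {κ : Type} [Fintype κ] {ρ : EuclideanSpace ℝ κ → ℝ}

theorem par_dual (a b : EuclideanSpace ℝ κ →L[ℝ] ℝ) :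
    ‖a + b‖ ^ 2 + ‖a - b‖ ^ 2 = 2 * (‖a‖ ^ 2 + ‖b‖ ^ 2) := by
  have h := parallelogram_law_with_norm ℝ ((InnerProductSpace.toDual ℝ (EuclideanSpace ℝ κ)).symm a)
    ((InnerProductSpace.toDual ℝ (EuclideanSpace ℝ κ)).symm b)
  rw [← map_add, ← map_sub, LinearIsometryEquiv.norm_map, LinearIsometryEquiv.norm_map,
    LinearIsometryEquiv.norm_map, LinearIsometryEquiv.norm_map] at h
  nlinarith [h]

theorem fderiv_neg_comp {f : EuclideanSpace ℝ κ → ℝ} (hf : ContDiff ℝ 1 f)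
    (x : EuclideanSpace ℝ κ) : HasFDerivAt (fun y => f (-y)) (-fderiv ℝ f (-x)) x := by
  have h1 : HasFDerivAt f (fderiv ℝ f (-x)) (-x) :=
    (hf.differentiable (by norm_num) (-x)).hasFDerivAt
  have h2 := h1.comp x ((hasFDerivAt_id x).neg)
  have e : (fderiv ℝ f (-x)).comp (-(ContinuousLinearMap.id ℝ (EuclideanSpace ℝ κ))) =
      -fderiv ℝ f (-x) := by
    ext z
    simp
  rw [e] at h2
  exact h2

/-- **all functions**, from the even ones and the covariance -/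
theorem all (hρ : LC ρ) (he : ∀ x, ρ (-x) = ρ x) (L s : ℝ) (hL : 0 < L) (hs0 : 0 ≤ s)
    (hcov : ∀ w : EuclideanSpace ℝ κ, ∫ x, ⟪x, w⟫_ℝ ^ 2 ∂(mu ρ) ≤
      s * ‖w‖ ^ 2 * (mu ρ).real univ)
    (heven : ∀ f : EuclideanSpace ℝ κ → ℝ, ContDiff ℝ 1 f → (∀ x, f (-x) = f x) →
      ∃ c : ℝ, ∫ x, (f x - c) ^ 2 ∂(mu ρ) ≤ L * ∫ x, ‖fderiv ℝ f x‖ ^ 2 ∂(mu ρ))
    (f : EuclideanSpace ℝ κ → ℝ) (hf : ContDiff ℝ 1 f) :
    W ρ f ≤ (4 * L + 8 * s) * ∫ x, ‖fderiv ℝ f x‖ ^ 2 ∂(mu ρ) := by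
  obtain ⟨g0, hg0⟩ : ∃ g : EuclideanSpace ℝ κ ≃ₗᵢ[ℝ] EuclideanSpace ℝ κ, ∀ x, g x = -x :=
    ⟨LinearIsometryEquiv.neg ℝ, neg_iso⟩
  have key : ∀ F : EuclideanSpace ℝ κ → ℝ, ∫ x, F (-x) ∂(mu ρ) = ∫ x, F x ∂(mu ρ) := by
    intro F
    have := N10x.int_comp hρ.meas g0 (fun x => by rw [hg0, he]) F
    simpa only [hg0] using this
  have hg : ContDiff ℝ 1 (fun y => f (-y)) := hf.comp contDiff_neg
  have hfe : ContDiff ℝ 1 (fun y => (f y + f (-y)) / 2) := (hf.add hg).div_const 2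
  have hfo : ContDiff ℝ 1 (fun y => (f y - f (-y)) / 2) := (hf.sub hg).div_const 2
  obtain ⟨c, hc⟩ := heven _ hfe (fun x => by simp only [neg_neg]; ring)
  have h1 := odd hρ he L s hL hs0 hcov heven (fun y => (f y - f (-y)) / 2) hfo
    (fun x => by simp only [neg_neg]; ring)
  have hodd0 : ∫ x, (f x - f (-x)) / 2 ∂(mu ρ) = 0 := by
    have h2 := key fun x => (f x - f (-x)) / 2
    simp only [neg_neg] at h2
    have h3 : ∫ x, (f (-x) - f x) / 2 ∂(mu ρ) = -∫ x, (f x - f (-x)) / 2 ∂(mu ρ) := by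
      rw [← integral_neg]
      congr 1
      funext x
      ring
    rw [h3] at h2
    linarith
  have h1' : ∫ x, ((f x - f (-x)) / 2) ^ 2 ∂(mu ρ) ≤ (4 * L + 8 * s) *
      ∫ x, ‖fderiv ℝ (fun y => (f y - f (-y)) / 2) x‖ ^ 2 ∂(mu ρ) := by
    unfold W at h1
    rw [hodd0] at h1
    simpa using h1
  refine (W_le hρ hf.continuous c).trans ?_
  -- the square
  have hsq : ∫ x, (f x - c) ^ 2 ∂(mu ρ) =
      ∫ x, ((f x + f (-x)) / 2 - c) ^ 2 ∂(mu ρ) + ∫ x, ((f x - f (-x)) / 2) ^ 2 ∂(mu ρ) := by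
    have e1 := key (fun x => (f x - c) ^ 2)
    have i1 : Integrable (fun x => ((f x + f (-x)) / 2 - c) ^ 2) (mu ρ) :=
      int_cont hρ ((hfe.continuous.sub continuous_const).pow 2)
    have i2 : Integrable (fun x => ((f x - f (-x)) / 2) ^ 2) (mu ρ) :=
      int_cont hρ (hfo.continuous.pow 2)
    have i3 : Integrable (fun x => (f x - c) ^ 2) (mu ρ) :=
      int_cont hρ ((hf.continuous.sub continuous_const).pow 2)
    have i4 : Integrable (fun x => (f (-x) - c) ^ 2) (mu ρ) :=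
      int_cont hρ ((hg.continuous.sub continuous_const).pow 2)
    have e2 : ∫ x, ((f x - c) ^ 2 + (f (-x) - c) ^ 2) ∂(mu ρ) =
        ∫ x, 2 * (((f x + f (-x)) / 2 - c) ^ 2 + ((f x - f (-x)) / 2) ^ 2) ∂(mu ρ) := by
      congr 1
      funext x
      ring
    rw [integral_add i3 i4, integral_const_mul, integral_add i1 i2] at e2
    linarith
  -- the gradient
  have hgr : ∫ x, ‖fderiv ℝ (fun y => (f y + f (-y)) / 2) x‖ ^ 2 ∂(mu ρ) +
      ∫ x, ‖fderiv ℝ (fun y => (f y - f (-y)) / 2) x‖ ^ 2 ∂(mu ρ) =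
      ∫ x, ‖fderiv ℝ f x‖ ^ 2 ∂(mu ρ) := by
    have e1 : ∫ x, ‖fderiv ℝ f (-x)‖ ^ 2 ∂(mu ρ) = ∫ x, ‖fderiv ℝ f x‖ ^ 2 ∂(mu ρ) :=
      key (fun x => ‖fderiv ℝ f x‖ ^ 2)
    have i1 := int_cont hρ (grad_cont hfe)
    have i2 := int_cont hρ (grad_cont hfo)
    have i3 := int_cont hρ (grad_cont hf)
    have i4 : Integrable (fun x => ‖fderiv ℝ f (-x)‖ ^ 2) (mu ρ) :=
      int_cont hρ ((grad_cont hf).comp continuous_neg)
    have e2 : ∫ x, 2 * (‖fderiv ℝ (fun y => (f y + f (-y)) / 2) x‖ ^ 2 +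
        ‖fderiv ℝ (fun y => (f y - f (-y)) / 2) x‖ ^ 2) ∂(mu ρ) =
        ∫ x, (‖fderiv ℝ f x‖ ^ 2 + ‖fderiv ℝ f (-x)‖ ^ 2) ∂(mu ρ) := by
      congr 1
      funext x
      have d1 : HasFDerivAt f (fderiv ℝ f x) x :=
        (hf.differentiable (by norm_num) x).hasFDerivAt
      have d2 := fderiv_neg_comp hf x
      have d3 : fderiv ℝ (fun y => (f y + f (-y)) / 2) x =
          (2 : ℝ)⁻¹ • (fderiv ℝ f x + -fderiv ℝ f (-x)) := by
        refine HasFDerivAt.fderiv ?_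
        have := (d1.add d2).const_smul (2 : ℝ)⁻¹
        refine this.congr_of_eventuallyEq (Filter.Eventually.of_forall fun y => ?_)
        simp only [Pi.smul_apply, Pi.add_apply, smul_eq_mul]
        ring
      have d4 : fderiv ℝ (fun y => (f y - f (-y)) / 2) x =
          (2 : ℝ)⁻¹ • (fderiv ℝ f x - -fderiv ℝ f (-x)) := by
        refine HasFDerivAt.fderiv ?_
        have := (d1.sub d2).const_smul (2 : ℝ)⁻¹
        refine this.congr_of_eventuallyEq (Filter.Eventually.of_forall fun y => ?_)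
        simp only [Pi.smul_apply, Pi.sub_apply, smul_eq_mul]
        ring
      have h3 := par_dual (fderiv ℝ f x) (-fderiv ℝ f (-x))
      rw [norm_neg] at h3
      rw [d3, d4, norm_smul, norm_smul, mul_pow, mul_pow]
      have h4 : ‖(2 : ℝ)⁻¹‖ ^ 2 = 1 / 4 := by
        rw [Real.norm_eq_abs, sq_abs]; norm_num
      rw [h4]
      linarith
    rw [integral_const_mul, integral_add i1 i2, integral_add i3 i4] at e2
    linarith
  have hn1 : 0 ≤ ∫ x, ‖fderiv ℝ (fun y => (f y + f (-y)) / 2) x‖ ^ 2 ∂(mu ρ) :=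
    integral_nonneg fun x => by positivity
  rw [hsq, ← hgr, mul_add]
  refine add_le_add (hc.trans ?_) h1'
  exact mul_le_mul_of_nonneg_right (by linarith) hn1

end Run7.h444.ER
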