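import Pool.Agent.Run7.h444.ER3
import Pool.Agent.W695.KH.Final
import Pool.Agent.W12.KH.Lim
import Pool.Agent.W880.KH.Body

/-!
# From the Poincare inequality to the isoperimetric inequality (helper444)
-/

set_option autoImplicit false

namespace Run7.h444.ER

open MeasureTheory Set Filter Topology
open scoped ENNReal InnerProductSpace
open Pool.Agent.W695.KH (Eu EU EV VV Sm Pot Uu WPo)
open Pool.Agent.W12.KH (wt wt_cont wt_pos wt_int tend EU_eq)
open Pool.Agent.W880.KH (EU_sub_sq)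

variable {κ : Type} [Fintype κ]

theorem wt_one {D : Set (Eu κ)} {A : ℝ} {x : Eu κ} (hx : x ∈ D) : wt D A x = 1 := by
  unfold wt
  rw [Metric.infDist_zero_of_mem hx]
  simp

theorem VV_nonneg {D : Set (Eu κ)} (hD : IsCompact D) (hvol : 0 < volume D) {f : Eu κ → ℝ}
    (hf : Continuous f) : VV D f = EV D fun x => (f x - EV D f) ^ 2 := by
  have hfin : volume D ≠ ⊤ := hD.measure_lt_top.ne
  have hpos : 0 < (volume D).toReal := ENNReal.toReal_pos hvol.ne' hfin
  obtain ⟨m, hm⟩ : ∃ m, m = EV D f := ⟨_, rfl⟩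
  have i1 : IntegrableOn f D := hf.continuousOn.integrableOn_compact hD
  have i2 : IntegrableOn (fun x => f x ^ 2) D := (hf.pow 2).continuousOn.integrableOn_compact hD
  have i3 : IntegrableOn (fun _ : Eu κ => m ^ 2) D :=
    (continuous_const (y := m ^ 2)).continuousOn.integrableOn_compact hD
  have e : (fun x => (f x - m) ^ 2) = fun x => (f x ^ 2 - 2 * m * f x) + m ^ 2 := by
    funext x; ring
  unfold VV
  rw [← hm]
  unfold EV at hm ⊢
  have a1 : ∫ x in D, ((f x ^ 2 - 2 * m * f x) + m ^ 2) =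
      (∫ x in D, (f x ^ 2 - 2 * m * f x)) + ∫ _x in D, m ^ 2 :=
    integral_add (i2.sub (i1.const_mul (2 * m))) i3
  have a2 : ∫ x in D, (f x ^ 2 - 2 * m * f x) =
      (∫ x in D, f x ^ 2) - ∫ x in D, 2 * m * f x := integral_sub i2 (i1.const_mul (2 * m))
  rw [e, a1, a2, integral_const_mul, setIntegral_const]
  have h2 : ∫ x in D, f x = m * (volume D).toReal := by
    rw [hm]
    field_simp
  rw [h2, Measure.real, smul_eq_mul]
  field_simp
  ring

/-- transfer of the Poincare inequality to the approximating densities -/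
theorem wpo (D : Set (Eu κ)) (hD : IsCompact D) (hconv : Convex ℝ D) (hvol : 0 < volume D)
    (C : ℝ) (hC : 0 < C)
    (hP : ∀ v : Eu κ → ℝ, ContDiff ℝ 1 v → VV D v ≤ C * EV D fun x => ‖fderiv ℝ v x‖ ^ 2)
    (δ : ℝ) (hδ : 0 < δ) : ∀ᶠ A in atTop, WPo (Uu D A) δ (δ / (2 * C)) := by
  have hne : D.Nonempty := by
    rw [nonempty_iff_ne_empty]
    intro h
    rw [h, measure_empty] at hvol
    exact lt_irrefl _ hvol
  have hfin : volume D ≠ ⊤ := hD.measure_lt_top.ne
  obtain ⟨V, hV⟩ : ∃ V, V = (volume D).toReal := ⟨_, rfl⟩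
  have hpos : 0 < V := by rw [hV]; exact ENNReal.toReal_pos hvol.ne' hfin
  have h2 := tend (κ := κ) hD hne (g := fun _ => 1) (B := 1) continuous_const
        (fun x => by rw [abs_one, one_mul]; nlinarith [sq_nonneg ‖x‖])
  have h3 : (∫ _x in D, (1 : ℝ)) = V := by
    rw [hV]
    simp [Measure.real]
  rw [h3] at h2
  have hq : Tendsto (fun A : ℝ => V / ∫ x, (1 : ℝ) * wt D A x) atTop (𝓝 (V / V)) :=
    tendsto_const_nhds.div h2 hpos.ne'
  rw [div_self hpos.ne'] at hq
  have hq1 := hq.eventually_const_lt (show max (2 / 3) (1 - δ / 16) < 1 by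
    rw [max_lt_iff]; constructor <;> linarith)
  filter_upwards [hq1, eventually_gt_atTop (0 : ℝ)] with A hA1 hA v L hv hb hL hvar
  simp only [one_mul] at hA1
  obtain ⟨Z, hZ⟩ : ∃ Z, Z = ∫ x, wt D A x := ⟨_, rfl⟩
  rw [← hZ] at hA1
  obtain ⟨hA2, hA3⟩ := max_lt_iff.1 hA1
  have hvc := hv.continuous
  have hgc : Continuous fun x => ‖fderiv ℝ v x‖ ^ 2 :=
    ((hv.continuous_fderiv (by norm_num)).norm).pow 2
  have hi1 : Integrable fun x => wt D A x := by
    have := wt_int (κ := κ) hD hne hA (g := fun _ => 1) (B := 1) continuous_const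
        (fun x => by rw [abs_one, one_mul]; nlinarith [sq_nonneg ‖x‖])
    simpa using this
  have hZ0 : 0 < Z := by
    by_contra hn
    have : V / Z ≤ 0 := div_nonpos_of_nonneg_of_nonpos hpos.le (not_lt.1 hn)
    linarith
  have hone : EU (Uu D A) (fun _ => 1) = 1 :=
    (Pool.Agent.W695.KH.proj κ D hD hconv hne A hA).2.1
  obtain ⟨c, hc⟩ : ∃ c, c = EV D v := ⟨_, rfl⟩
  have hc1 : |c| ≤ 1 := by
    rw [hc]
    unfold EV
    rw [abs_div, abs_of_pos (by rw [← hV]; exact hpos : 0 < (volume D).toReal),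
      div_le_one (by rw [← hV]; exact hpos)]
    have := norm_setIntegral_le_of_norm_le_const (μ := volume) (s := D) (f := v) (C := 1)
      hD.measure_lt_top (fun x _ => by rw [Real.norm_eq_abs]; exact hb x)
    rw [one_mul] at this
    exact this
  have hcb : ∀ x, (v x - c) ^ 2 ≤ 4 := by
    intro x
    have h1 := abs_le.1 (hb x)
    have h2 := abs_le.1 hc1
    nlinarith
  have hVar1 : EU (Uu D A) (fun x => v x ^ 2) - EU (Uu D A) v ^ 2 ≤
      EU (Uu D A) fun x => (v x - c) ^ 2 := by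
    rw [EU_sub_sq _ hone v hvc 1 hb c]
    nlinarith [sq_nonneg (EU (Uu D A) v - c)]
  have hi2 : Integrable fun x => (v x - c) ^ 2 * wt D A x := by
    refine wt_int (κ := κ) hD hne hA (g := fun x => (v x - c) ^ 2) (B := 4) (by fun_prop)
      (fun x => ?_)
    rw [abs_of_nonneg (sq_nonneg _)]
    nlinarith [hcb x, sq_nonneg ‖x‖]
  have hi3 : Integrable fun x => ‖fderiv ℝ v x‖ ^ 2 * wt D A x := by
    refine wt_int (κ := κ) hD hne hA (g := fun x => ‖fderiv ℝ v x‖ ^ 2) (B := L ^ 2) hgc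
      (fun x => ?_)
    rw [abs_of_nonneg (sq_nonneg _)]
    have h1 := pow_le_pow_left₀ (norm_nonneg _) (hL x) 2
    nlinarith [sq_nonneg ‖x‖, sq_nonneg L, mul_nonneg (sq_nonneg L) (sq_nonneg ‖x‖)]
  have hind1 : Integrable (D.indicator fun x => (v x - c) ^ 2) := by
    rw [integrable_indicator_iff hD.measurableSet]
    exact (by fun_prop : Continuous fun x => (v x - c) ^ 2).continuousOn.integrableOn_compact hD
  have hind2 : Integrable (D.indicator fun _ : Eu κ => (1 : ℝ)) := by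
    rw [integrable_indicator_iff hD.measurableSet]
    exact (continuous_const (y := (1 : ℝ))).continuousOn.integrableOn_compact hD
  have hind3 : Integrable (D.indicator fun x => ‖fderiv ℝ v x‖ ^ 2) := by
    rw [integrable_indicator_iff hD.measurableSet]
    exact hgc.continuousOn.integrableOn_compact hD
  have hVar2 : ∫ x, (v x - c) ^ 2 * wt D A x ≤ (∫ x in D, (v x - c) ^ 2) + 4 * (Z - V) := by
    have h1 : ∫ x, (v x - c) ^ 2 * wt D A x ≤ ∫ x, (D.indicator (fun x => (v x - c) ^ 2) x +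
        4 * (wt D A x - D.indicator (fun _ => (1 : ℝ)) x)) := by
      refine integral_mono hi2 (hind1.add ((hi1.sub hind2).const_mul 4)) fun x => ?_
      by_cases hx : x ∈ D
      · simp only [indicator_of_mem hx, wt_one hx]
        linarith
      · simp only [indicator_of_notMem hx]
        nlinarith [hcb x, wt_pos D A x]
    have h4 : ∫ x, 4 * (wt D A x - D.indicator (fun _ => (1 : ℝ)) x) = 4 * (Z - V) := by
      rw [integral_const_mul, integral_sub hi1 hind2, integral_indicator hD.measurableSet, h3, hZ]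
    have h5 : ∫ x, (D.indicator (fun x => (v x - c) ^ 2) x +
        4 * (wt D A x - D.indicator (fun _ => (1 : ℝ)) x)) =
        (∫ x, D.indicator (fun x => (v x - c) ^ 2) x) +
          ∫ x, 4 * (wt D A x - D.indicator (fun _ => (1 : ℝ)) x) :=
      integral_add hind1 ((hi1.sub hind2).const_mul 4)
    rw [h5, h4, integral_indicator hD.measurableSet] at h1
    exact h1
  have hE2 : ∫ x in D, ‖fderiv ℝ v x‖ ^ 2 ≤ ∫ x, ‖fderiv ℝ v x‖ ^ 2 * wt D A x := by
    rw [← integral_indicator hD.measurableSet]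
    refine integral_mono hind3 hi3 fun x => ?_
    by_cases hx : x ∈ D
    · simp only [indicator_of_mem hx, wt_one hx, mul_one]
      exact le_rfl
    · simp only [indicator_of_notMem hx]
      exact mul_nonneg (sq_nonneg _) (wt_pos D A x).le
  rw [EU_eq hD hne hA, ← hZ] at hVar1 ⊢
  rw [EU_eq hD hne hA, EU_eq hD hne hA, ← hZ] at hvar
  rw [EU_eq hD hne hA, EU_eq hD hne hA, ← hZ] at hVar1
  have hVV := hP v hv
  rw [VV_nonneg hD hvol hvc, ← hc] at hVV
  unfold EV at hVV
  rw [← hV] at hVV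
  obtain ⟨I1, hI1⟩ : ∃ I, I = ∫ x in D, (v x - c) ^ 2 := ⟨_, rfl⟩
  obtain ⟨I2, hI2⟩ : ∃ I, I = ∫ x in D, ‖fderiv ℝ v x‖ ^ 2 := ⟨_, rfl⟩
  rw [← hI1] at hVar2 hVV
  rw [← hI2] at hE2 hVV
  have h6 : δ ≤ (I1 + 4 * (Z - V)) / Z :=
    (hvar.trans hVar1).trans (div_le_div_of_nonneg_right hVar2 hZ0.le)
  have h7 : (I1 + 4 * (Z - V)) / Z = V / Z * (I1 / V) + 4 * (1 - V / Z) := by
    field_simp
  rw [h7] at h6
  have hI10 : 0 ≤ I1 / V := by
    rw [hI1]
    exact div_nonneg (integral_nonneg fun x => sq_nonneg _) hpos.le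
  have h8 : V / Z * (3 / 4 * δ) ≤ V / Z * (V / Z * (I1 / V)) := by
    refine mul_le_mul_of_nonneg_left ?_ (by positivity)
    linarith
  have h9 : I2 / Z ≤ (∫ x, ‖fderiv ℝ v x‖ ^ 2 * wt D A x) / Z :=
    div_le_div_of_nonneg_right hE2 hZ0.le
  refine le_trans ?_ h9
  have h10 : I2 / Z = V / Z * (I2 / V) := by
    field_simp
  rw [h10, div_le_iff₀ (by positivity)]
  have h11 : V / Z * (I1 / V) ≤ V / Z * (C * (I2 / V)) :=
    mul_le_mul_of_nonneg_left hVV (by positivity)
  nlinarith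

theorem cheeger (D : Set (Eu κ)) (hD : IsCompact D) (hconv : Convex ℝ D) (hvol : 0 < volume D)
    (C : ℝ) (hC : 0 < C)
    (hP : ∀ v : Eu κ → ℝ, ContDiff ℝ 1 v → VV D v ≤ C * EV D fun x => ‖fderiv ℝ v x‖ ^ 2)
    (f : Eu κ → ℝ) (L M : ℝ) (hf : Sm f L M) (hb : ∀ x, |f x| ≤ 1 / 2) :
    VV D f ≤ Real.sqrt (40 * C) * EV D fun x => ‖fderiv ℝ f x‖ := by
  have hg0 : 0 ≤ EV D fun x => ‖fderiv ℝ f x‖ := by
    unfold EV
    exact div_nonneg (integral_nonneg fun x => norm_nonneg _) ENNReal.toReal_nonneg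
  by_cases h0 : VV D f ≤ 0
  · exact h0.trans (mul_nonneg (Real.sqrt_nonneg _) hg0)
  rw [not_le] at h0
  have h1 := Pool.Agent.W695.KH.body κ D hD hconv hvol (VV D f / 5) (VV D f / 5 / (2 * C))
    (by positivity) (by positivity) (wpo D hD hconv hvol C hC hP _ (by positivity)) f L M hf hb
    (by linarith)
  have h2 : VV D f ^ 2 ≤ 40 * C * (EV D fun x => ‖fderiv ℝ f x‖) ^ 2 := by
    have h3 : 4 / (VV D f / 5 / (2 * C)) = 40 * C / VV D f := by
      field_simp
      ring
    rw [h3, div_mul_eq_mul_div, le_div_iff₀ h0] at h1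
    calc VV D f ^ 2 = VV D f * VV D f := sq _
      _ ≤ _ := h1
  refine le_of_sq_le_sq ?_ (by positivity)
  rw [mul_pow, Real.sq_sqrt (by positivity)]
  exact h2

end Run7.h444.ER
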