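import Pool.Agent.Run7.h444.ER4

/-!
# Isoperimetry for all sets from symmetric sets (helper444)
-/

set_option autoImplicit false

namespace Run7.h444.ER

open MeasureTheory Set Filter Topology
open scoped ENNReal InnerProductSpace
open Pool.Agent.W695.KH (Eu EU EV VV Sm Pot Uu WPo)
open Pool.Agent.H212R2.KLS (mu Bdd)
open Pool.Agent.H888R2.KT (LC)
open Pool.Agent.H888R2.KT.N9x (W W_le mass_pos)

variable {κ : Type} [Fintype κ]

theorem lc_ind {K : Set (Eu κ)} (hK : IsCompact K) (hc : Convex ℝ K) (hvol : 0 < volume K) :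
    mu (K.indicator fun _ => (1 : ℝ)) = volume.restrict K ∧ LC (K.indicator fun _ => (1 : ℝ)) := by
  have hmu : mu (K.indicator fun _ => (1 : ℝ)) = volume.restrict K := by
    unfold mu
    have : (fun x : Eu κ => ENNReal.ofReal (K.indicator (fun _ => (1 : ℝ)) x)) =
        K.indicator 1 := by
      funext x
      by_cases hx : x ∈ K
      · simp [indicator_of_mem hx]
      · simp [indicator_of_notMem hx]
    rw [this, withDensity_indicator_one hK.measurableSet]
  refine ⟨hmu, ?_⟩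
  obtain ⟨R, hR⟩ := hK.isBounded.exists_norm_le
  refine ⟨fun x => indicator_nonneg (fun _ _ => zero_le_one) x,
    (measurable_const.indicator hK.measurableSet), fun x y t ht ht1 => ?_, ⟨R, fun x hx => ?_⟩,
    ?_, ?_⟩
  · by_cases hx : x ∈ K
    · by_cases hy : y ∈ K
      · have hz : (1 - t) • x + t • y ∈ K := hc hx hy (by linarith) ht.le (by ring)
        rw [indicator_of_mem hx, indicator_of_mem hy, indicator_of_mem hz, Real.one_rpow,
          Real.one_rpow, one_mul]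
      · rw [indicator_of_notMem hy, Real.zero_rpow ht.ne', mul_zero]
        exact indicator_nonneg (fun _ _ => zero_le_one) _
    · rw [indicator_of_notMem hx, Real.zero_rpow (sub_pos.2 ht1).ne', zero_mul]
      exact indicator_nonneg (fun _ _ => zero_le_one) _
  · rw [indicator_of_notMem]
    intro h
    exact absurd (hR x h) (not_le.2 hx)
  · rw [hmu, Measure.restrict_apply_univ]
    exact hK.measure_lt_top.ne
  · rw [hmu]
    intro h
    have := congrArg (fun m => m univ) h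
    simp only [Measure.restrict_apply_univ, Measure.coe_zero, Pi.zero_apply] at this
    exact hvol.ne' this

/-- **All sets.** -/
theorem sets (K : Set (Eu κ)) (hK : IsCompact K) (hc : Convex ℝ K) (hvol : 0 < volume K)
    (hsym : ∀ x ∈ K, -x ∈ K) (μ : Measure (Eu κ)) (hμ : μ = (volume K)⁻¹ • volume.restrict K)
    (t s : ℝ) (ht : 0 < t) (hs : 0 ≤ s)
    (hcov : ∀ w : Eu κ, EV K (fun x => ⟪x, w⟫_ℝ ^ 2) ≤ s * ‖w‖ ^ 2)
    (H : ∀ S : Set (Eu κ), MeasurableSet S → (∀ x, x ∈ S → -x ∈ S) →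
      ENNReal.ofReal t * min (μ S) (μ Sᶜ) ≤ bd μ S)
    (S : Set (Eu κ)) (hS : MeasurableSet S) :
    μ S * (1 - μ S) ≤ ENNReal.ofReal (Real.sqrt (40 * (16 / t ^ 2 + 8 * s))) * bd μ S := by
  obtain ⟨hmu, hLC⟩ := lc_ind hK hc hvol
  have hfin : volume K ≠ ⊤ := hK.measure_lt_top.ne
  have hV : 0 < (volume K).toReal := ENNReal.toReal_pos hvol.ne' hfin
  have hprob : IsProbabilityMeasure μ := by
    refine ⟨?_⟩
    rw [hμ, Measure.smul_apply, Measure.restrict_apply_univ, smul_eq_mul,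
      ENNReal.inv_mul_cancel hvol.ne' hfin]
  have hint : ∀ g : Eu κ → ℝ, ∫ x, g x ∂μ = ((volume K).toReal)⁻¹ * ∫ x in K, g x := by
    intro g
    rw [hμ, integral_smul_measure, ENNReal.toReal_inv, smul_eq_mul]
  have hμc : μ Kᶜ = 0 := by
    rw [hμ, Measure.smul_apply, Measure.restrict_apply hK.measurableSet.compl, compl_inter_self,
      measure_empty, smul_zero]
  have hreal : (mu (K.indicator fun _ => (1 : ℝ))).real univ = (volume K).toReal := by
    rw [hmu, Measure.real, Measure.restrict_apply_univ]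
  have heven : ∀ f : Eu κ → ℝ, ContDiff ℝ 1 f → (∀ x, f (-x) = f x) →
      ∃ c : ℝ, ∫ x, (f x - c) ^ 2 ∂(mu (K.indicator fun _ => (1 : ℝ))) ≤
        4 / t ^ 2 * ∫ x, ‖fderiv ℝ f x‖ ^ 2 ∂(mu (K.indicator fun _ => (1 : ℝ))) := by
    intro f hf he
    obtain ⟨m, hm⟩ := even_poinc μ hK hμc t ht H hf he
    refine ⟨m, ?_⟩
    rw [hmu]
    rw [hint, hint] at hm
    have h1 := mul_le_mul_of_nonneg_left hm hV.le
    have e1 : ∀ a : ℝ, (volume K).toReal * (((volume K).toReal)⁻¹ * a) = a := by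
      intro a
      field_simp
    have e2 : ∀ a b : ℝ, (volume K).toReal * (b * (((volume K).toReal)⁻¹ * a)) = b * a := by
      intro a b
      field_simp
    rw [e1, e2] at h1
    exact h1
  have heven' : ∀ x, (K.indicator fun _ => (1 : ℝ)) (-x) = (K.indicator fun _ => (1 : ℝ)) x := by
    intro x
    by_cases hx : x ∈ K
    · rw [indicator_of_mem hx, indicator_of_mem (hsym x hx)]
    · rw [indicator_of_notMem hx, indicator_of_notMem fun h => hx (by simpa using hsym _ h)]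
  have hcov' : ∀ w : Eu κ, ∫ x, ⟪x, w⟫_ℝ ^ 2 ∂(mu (K.indicator fun _ => (1 : ℝ))) ≤
      s * ‖w‖ ^ 2 * (mu (K.indicator fun _ => (1 : ℝ))).real univ := by
    intro w
    have h1 := hcov w
    unfold EV at h1
    rw [div_le_iff₀ hV] at h1
    rw [hreal, hmu]
    exact h1
  obtain ⟨C, hC⟩ : ∃ C, C = 16 / t ^ 2 + 8 * s := ⟨_, rfl⟩
  have hC0 : 0 < C := by rw [hC]; positivity
  have hP : ∀ v : Eu κ → ℝ, ContDiff ℝ 1 v → VV K v ≤ C * EV K fun x => ‖fderiv ℝ v x‖ ^ 2 := by
    intro v hv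
    have h1 := all hLC heven' (4 / t ^ 2) s (by positivity) hs hcov' heven v hv
    unfold W at h1
    rw [hreal, hmu] at h1
    unfold VV EV
    have h2 : ∀ a b V : ℝ, 0 < V → a / V - (b / V) ^ 2 = (a - b ^ 2 / V) / V := by
      intro a b V hV
      field_simp
    rw [h2 _ _ _ hV, ← mul_div_assoc, div_le_div_iff_of_pos_right hV]
    refine h1.trans_eq ?_
    rw [hC]
    ring
  have h3 := Pool.Agent.W695.KH.mink κ K hK hc hvol (Real.sqrt (40 * C)) (by positivity)
    (cheeger K hK hc hvol C hC0 hP) μ hμ S hS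
  rw [hC] at h3
  exact h3

/-- with the minimum -/
theorem sets_min (K : Set (Eu κ)) (hK : IsCompact K) (hc : Convex ℝ K) (hvol : 0 < volume K)
    (hsym : ∀ x ∈ K, -x ∈ K) (μ : Measure (Eu κ)) (hμ : μ = (volume K)⁻¹ • volume.restrict K)
    (t s : ℝ) (ht : 0 < t) (hs : 0 < s)
    (hcov : ∀ w : Eu κ, EV K (fun x => ⟪x, w⟫_ℝ ^ 2) ≤ s * ‖w‖ ^ 2)
    (H : ∀ S : Set (Eu κ), MeasurableSet S → (∀ x, x ∈ S → -x ∈ S) →
      ENNReal.ofReal t * min (μ S) (μ Sᶜ) ≤ bd μ S)
    (S : Set (Eu κ)) (hS : MeasurableSet S) :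
    ENNReal.ofReal (min t (1 / Real.sqrt s) / 62) * min (μ S) (μ Sᶜ) ≤ bd μ S := by
  have h1 := sets K hK hc hvol hsym μ hμ t s ht hs.le hcov H S hS
  have hfin : volume K ≠ ⊤ := hK.measure_lt_top.ne
  have hprob : IsProbabilityMeasure μ := by
    refine ⟨?_⟩
    rw [hμ, Measure.smul_apply, Measure.restrict_apply_univ, smul_eq_mul,
      ENNReal.inv_mul_cancel hvol.ne' hfin]
  obtain ⟨m, hm⟩ : ∃ m, m = min t (1 / Real.sqrt s) := ⟨_, rfl⟩
  have hs0 : 0 < Real.sqrt s := Real.sqrt_pos.2 hs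
  have hm0 : 0 < m := by rw [hm]; exact lt_min ht (by positivity)
  have hmt : m ≤ t := by rw [hm]; exact min_le_left _ _
  have hms : m * Real.sqrt s ≤ 1 := by
    have : m ≤ 1 / Real.sqrt s := by rw [hm]; exact min_le_right _ _
    rwa [le_div_iff₀ hs0] at this
  have h2 : Real.sqrt (40 * (16 / t ^ 2 + 8 * s)) ≤ 31 / m := by
    refine Real.sqrt_le_iff.2 ⟨by positivity, ?_⟩
    have e1 : 16 / t ^ 2 ≤ 16 / m ^ 2 :=
      div_le_div_of_nonneg_left (by norm_num) (by positivity) (pow_le_pow_left₀ hm0.le hmt 2)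
    have e2 : 8 * s ≤ 8 / m ^ 2 := by
      rw [le_div_iff₀ (by positivity)]
      have : m ^ 2 * s = (m * Real.sqrt s) ^ 2 := by
        rw [mul_pow, Real.sq_sqrt hs.le]
      have h5 : (m * Real.sqrt s) ^ 2 ≤ 1 := pow_le_one₀ (by positivity) hms
      nlinarith
    have e3 : (31 / m) ^ 2 = 961 / m ^ 2 := by
      rw [div_pow]; norm_num
    rw [e3]
    calc 40 * (16 / t ^ 2 + 8 * s) ≤ 40 * (16 / m ^ 2 + 8 / m ^ 2) := by linarith
      _ = 960 / m ^ 2 := by ring
      _ ≤ _ := div_le_div_of_nonneg_right (by norm_num) (by positivity)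
  rw [← hm]
  have hSc : μ Sᶜ = 1 - μ S := prob_compl_eq_one_sub hS
  -- min / 2 ≤ product
  have h3 : min (μ S) (μ Sᶜ) ≤ 2 * (μ S * (1 - μ S)) := by
    rw [← hSc]
    have hadd := measure_add_measure_compl (μ := μ) hS
    rw [measure_univ] at hadd
    have hS1 : μ S ≠ ⊤ := measure_ne_top μ S
    have hS2 : μ Sᶜ ≠ ⊤ := measure_ne_top μ Sᶜ
    obtain ⟨a, ha⟩ : ∃ a, a = (μ S).toReal := ⟨_, rfl⟩
    obtain ⟨b, hb⟩ : ∃ b, b = (μ Sᶜ).toReal := ⟨_, rfl⟩
    have ha0 : 0 ≤ a := by rw [ha]; exact ENNReal.toReal_nonneg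
    have hb0 : 0 ≤ b := by rw [hb]; exact ENNReal.toReal_nonneg
    have hab : a + b = 1 := by
      rw [ha, hb, ← ENNReal.toReal_add hS1 hS2, hadd, ENNReal.toReal_one]
    have e1 : μ S = ENNReal.ofReal a := by rw [ha, ENNReal.ofReal_toReal hS1]
    have e2 : μ Sᶜ = ENNReal.ofReal b := by rw [hb, ENNReal.ofReal_toReal hS2]
    rw [e1, e2, ← ENNReal.ofReal_min, ← ENNReal.ofReal_mul ha0]
    have e3 : (2 : ℝ≥0∞) = ENNReal.ofReal 2 := by norm_num
    rw [e3, ← ENNReal.ofReal_mul (by norm_num)]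
    refine ENNReal.ofReal_le_ofReal ?_
    rcases le_total a b with h | h
    · rw [min_eq_left h]; nlinarith
    · rw [min_eq_right h]; nlinarith
  calc ENNReal.ofReal (m / 62) * min (μ S) (μ Sᶜ)
      ≤ ENNReal.ofReal (m / 62) * (2 * (ENNReal.ofReal (31 / m) * bd μ S)) := by
        refine mul_le_mul_right (h3.trans (mul_le_mul_right (h1.trans ?_) _)) _
        exact mul_le_mul_left (ENNReal.ofReal_le_ofReal h2) _
    _ = bd μ S := by
        have e3 : (2 : ℝ≥0∞) = ENNReal.ofReal 2 := by norm_num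
        have e4 : m / 62 * 2 * (31 / m) = 1 := by
          field_simp
          norm_num
        calc ENNReal.ofReal (m / 62) * (2 * (ENNReal.ofReal (31 / m) * bd μ S))
            = (ENNReal.ofReal (m / 62) * ENNReal.ofReal 2 * ENNReal.ofReal (31 / m)) * bd μ S := by
              rw [← e3]; ring
          _ = bd μ S := by
              rw [← ENNReal.ofReal_mul (by positivity), ← ENNReal.ofReal_mul (by positivity), e4,
                ENNReal.ofReal_one, one_mul]

end Run7.h444.ER
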