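import Pool.Agent.N483.KM.Gbs
import Pool.Agent.H888R2.KT.N1

/-!
# Densities with well-conditioned potentials: the inequality for all linear images (helper444)

For `w = exp (-V)` on `ℝⁿ`, where `V - Q` and `κ Q - V` are convex for a positive definite quadratic form
`Q`, the variance of `v(P x)` is at most `κ s E ‖∇ v (P x)‖²` if the marginals of `P x` have variances at
most `s`.
-/

set_option autoImplicit false

namespace Run7.h444

open MeasureTheory Set Filter Topology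
open scoped ENNReal InnerProductSpace
open Pool.Agent.R754.KG (E)
open Pool.Agent.N483.KM (LW KMW lw_of)
open Pool.Agent.Y506.RG (EW VW Adm)

/-- a linear change of variables which realises the form `‖L z‖²` -/
theorem exists_S {n : ℕ} {F : Type} [NormedAddCommGroup F] [InnerProductSpace ℝ F]
    [FiniteDimensional ℝ F] (L : E n →ₗ[ℝ] F) (hinj : Function.Injective L) :
    ∃ S : E n ≃L[ℝ] E n, ∀ z, ‖S.symm z‖ = ‖L z‖ := by
  let e1 : E n ≃ₗ[ℝ] LinearMap.range L := LinearEquiv.ofInjective L hinj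
  have hfr : Module.finrank ℝ (LinearMap.range L) = n := by
    rw [← e1.finrank_eq]; simp
  let e2 : LinearMap.range L ≃ₗᵢ[ℝ] E n :=
    ((stdOrthonormalBasis ℝ (LinearMap.range L)).reindex (finCongr hfr)).repr
  let e3 : E n ≃L[ℝ] E n := (e1.trans e2.toLinearEquiv).toContinuousLinearEquiv
  refine ⟨e3.symm, fun z => ?_⟩
  have h1 : e3.symm.symm z = e2 (e1 z) := rfl
  rw [h1, e2.norm_map]
  rfl

section

variable {n : ℕ} {F : Type} [NormedAddCommGroup F] [InnerProductSpace ℝ F]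
  [FiniteDimensional ℝ F] {L : E n →ₗ[ℝ] F} {V : E n → ℝ} {κ : ℝ}

theorem sq_conv (L : E n →ₗ[ℝ] F) : ConvexOn ℝ univ fun x => ‖L x‖ ^ 2 / 2 := by
  refine ⟨convex_univ, fun x _ y _ a b ha hb hab => ?_⟩
  simp only [smul_eq_mul]
  have hb' : b = 1 - a := by linarith
  subst hb'
  have h0 : 0 ≤ a * (1 - a) * ‖L x - L y‖ ^ 2 := by positivity
  have h1 : ‖L (a • x + (1 - a) • y)‖ ^ 2 =
      a ^ 2 * ‖L x‖ ^ 2 + 2 * (a * (1 - a)) * ⟪L x, L y⟫_ℝ + (1 - a) ^ 2 * ‖L y‖ ^ 2 := by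
    rw [map_add, map_smul, map_smul, @norm_add_sq_real, norm_smul, norm_smul, inner_smul_left,
      inner_smul_right, mul_pow, mul_pow, Real.norm_eq_abs, Real.norm_eq_abs, sq_abs, sq_abs]
    simp only [conj_trivial]
    ring
  rw [@norm_sub_sq_real] at h0
  rw [h1]
  nlinarith

theorem V_conv (h1 : ConvexOn ℝ univ fun x => V x - ‖L x‖ ^ 2 / 2) : ConvexOn ℝ univ V := by
  have h := h1.add (sq_conv L)
  have e : ((fun x => V x - ‖L x‖ ^ 2 / 2) + fun x => ‖L x‖ ^ 2 / 2) = V := by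
    funext x
    simp
  rwa [e] at h

theorem V_cont (h1 : ConvexOn ℝ univ fun x => V x - ‖L x‖ ^ 2 / 2) : Continuous V :=
  (V_conv h1).locallyLipschitz.continuous

/-- parallelogram identity -/
theorem par (x y : E n) : ‖L x‖ ^ 2 / 2 + ‖L y‖ ^ 2 / 2 =
    2 * (‖L ((1 / 2 : ℝ) • (x + y))‖ ^ 2 / 2) + ‖L (x - y)‖ ^ 2 / 4 := by
  rw [map_smul, map_add, map_sub, norm_smul, mul_pow, @norm_add_sq_real, @norm_sub_sq_real,
    Real.norm_eq_abs, sq_abs]
  ring

theorem mid_lower (h1 : ConvexOn ℝ univ fun x => V x - ‖L x‖ ^ 2 / 2) (x y : E n) :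
    2 * V ((1 / 2 : ℝ) • (x + y)) + ‖L (x - y)‖ ^ 2 / 4 ≤ V x + V y := by
  have h := h1.2 (mem_univ x) (mem_univ y) (by norm_num : (0 : ℝ) ≤ 1 / 2)
    (by norm_num : (0 : ℝ) ≤ 1 / 2) (by norm_num)
  simp only [smul_eq_mul] at h
  rw [← smul_add] at h
  have hp := par (L := L) x y
  linarith

theorem mid_upper (h2 : ConvexOn ℝ univ fun x => κ * (‖L x‖ ^ 2 / 2) - V x) (x y : E n) :
    V x + V y ≤ 2 * V ((1 / 2 : ℝ) • (x + y)) + κ * (‖L (x - y)‖ ^ 2 / 4) := by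
  have h := h2.2 (mem_univ x) (mem_univ y) (by norm_num : (0 : ℝ) ≤ 1 / 2)
    (by norm_num : (0 : ℝ) ≤ 1 / 2) (by norm_num)
  simp only [smul_eq_mul] at h
  rw [← smul_add] at h
  have hp := par (L := L) x y
  have hp' := congrArg (fun t => κ * t) hp
  linarith

/-- growth -/
theorem growth (hL : Function.Injective L)
    (h1 : ConvexOn ℝ univ fun x => V x - ‖L x‖ ^ 2 / 2) :
    ∃ C : ℝ, ∀ x, ‖x‖ - C ≤ V x := by
  have hc : Continuous fun x => V x - ‖L x‖ ^ 2 / 2 := h1.locallyLipschitz.continuous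
  obtain ⟨M, hM⟩ := (isCompact_closedBall (0 : E n) 1).exists_bound_of_continuousOn hc.continuousOn
  have hM0 : 0 ≤ M := (norm_nonneg _).trans (hM 0 (by simp))
  obtain ⟨S, hS⟩ := exists_S L hL
  obtain ⟨a, ha, ha'⟩ : ∃ a : ℝ, 0 < a ∧ ∀ x, a * ‖x‖ ≤ ‖L x‖ := by
    refine ⟨(‖(S : E n →L[ℝ] E n)‖ + 1)⁻¹, by positivity, fun x => ?_⟩
    rw [← hS x, inv_mul_le_iff₀ (by positivity)]
    have h := (S : E n →L[ℝ] E n).le_opNorm (S.symm x)
    have h' : (S : E n →L[ℝ] E n) (S.symm x) = x := by simp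
    rw [h'] at h
    nlinarith [norm_nonneg (S.symm x)]
  have hg : ∀ x, -(3 * M * (1 + ‖x‖)) ≤ V x - ‖L x‖ ^ 2 / 2 := by
    intro x
    rcases le_total ‖x‖ 1 with hx | hx
    · have h := hM x (by simpa using hx)
      rw [Real.norm_eq_abs] at h
      have h' := (abs_le.1 h).1
      nlinarith [norm_nonneg x]
    · have hx0 : 0 < ‖x‖ := by linarith
      have hu : ‖(‖x‖⁻¹ • x : E n)‖ = 1 := by
        rw [norm_smul, norm_inv, norm_norm, inv_mul_cancel₀ hx0.ne']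
      have h := hM (‖x‖⁻¹ • x) (by simp [hu])
      have h0 := hM 0 (by simp)
      rw [Real.norm_eq_abs] at h h0
      have h' := (abs_le.1 h).1
      have h0' := (abs_le.1 h0).2
      have hcx := h1.2 (mem_univ x) (mem_univ 0) (inv_nonneg.2 hx0.le)
        (by rw [sub_nonneg]; exact inv_le_one_of_one_le₀ hx : (0 : ℝ) ≤ 1 - ‖x‖⁻¹) (by ring)
      simp only [smul_eq_mul, smul_zero, add_zero] at hcx
      obtain ⟨g, hgd⟩ : ∃ g : E n → ℝ, g = fun x => V x - ‖L x‖ ^ 2 / 2 := ⟨_, rfl⟩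
      have e1 : V (‖x‖⁻¹ • x) - ‖L (‖x‖⁻¹ • x)‖ ^ 2 / 2 = g (‖x‖⁻¹ • x) := by rw [hgd]
      have e2 : V x - ‖L x‖ ^ 2 / 2 = g x := by rw [hgd]
      have e3 : V 0 - ‖L 0‖ ^ 2 / 2 = g 0 := by rw [hgd]
      rw [e1, e2, e3] at hcx
      rw [e1] at h'
      rw [e3] at h0'
      rw [e2]
      have h5 : ‖x‖ * g (‖x‖⁻¹ • x) ≤ g x + (‖x‖ - 1) * g 0 := by
        have := mul_le_mul_of_nonneg_left hcx hx0.le
        have e4 : ‖x‖ * (‖x‖⁻¹ * g x + (1 - ‖x‖⁻¹) * g 0) = g x + (‖x‖ - 1) * g 0 := by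
          field_simp
        linarith
      nlinarith
  refine ⟨3 * M + (3 * M + 1) ^ 2 / (2 * a ^ 2), fun x => ?_⟩
  have h3 := hg x
  have h4 : a ^ 2 * ‖x‖ ^ 2 ≤ ‖L x‖ ^ 2 := by
    rw [← mul_pow]
    exact pow_le_pow_left₀ (by positivity) (ha' x) 2
  have h5 : (3 * M + 1) * ‖x‖ ≤ a ^ 2 * ‖x‖ ^ 2 / 2 + (3 * M + 1) ^ 2 / (2 * a ^ 2) := by
    have e : a ^ 2 * ‖x‖ ^ 2 / 2 + (3 * M + 1) ^ 2 / (2 * a ^ 2) - (3 * M + 1) * ‖x‖ =
        (a * ‖x‖ - (3 * M + 1) / a) ^ 2 / 2 := by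
      field_simp
      ring
    have := div_nonneg (sq_nonneg (a * ‖x‖ - (3 * M + 1) / a)) (by norm_num : (0 : ℝ) ≤ 2)
    linarith
  nlinarith

theorem lw (hL : Function.Injective L)
    (h1 : ConvexOn ℝ univ fun x => V x - ‖L x‖ ^ 2 / 2) : LW fun x => Real.exp (-V x) := by
  have hc : Continuous fun x => Real.exp (-V x) := (V_cont h1).neg.rexp
  obtain ⟨C, hC⟩ := growth hL h1
  have hi : Integrable fun x => Real.exp (-V x) :=
    (Pool.Agent.N558.KM.int_decay hc.measurable (fun x => (Real.exp_pos _).le) one_pos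
      (C := Real.exp C) fun x => by
        rw [← Real.exp_add]
        exact Real.exp_le_exp.2 (by linarith [hC x])).1
  refine lw_of (fun x => (Real.exp_pos _).le) (fun x y t ht ht1 => ?_) hc.upperSemicontinuous hi ?_
  · rw [← Real.exp_mul, ← Real.exp_mul, ← Real.exp_add]
    refine Real.exp_le_exp.2 ?_
    have h := (V_conv h1).2 (mem_univ x) (mem_univ y) (by linarith : 0 ≤ 1 - t) ht.le (by ring)
    simp only [smul_eq_mul] at h
    linarith
  · rw [integral_pos_iff_support_of_nonneg (fun x => (Real.exp_pos _).le) hi]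
    have h1 : Function.support (fun x => Real.exp (-V x)) = univ := by
      ext z
      simp [(Real.exp_pos _).ne']
    rw [h1]
    exact NeZero.pos _

end

end Run7.h444
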