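import Pool.Agent.Run7.h444.WC1

/-!
# Densities with well-conditioned potentials: lower bound for variances (helper444)
-/

set_option autoImplicit false

namespace Run7.h444

open MeasureTheory Set Filter Topology
open scoped ENNReal InnerProductSpace
open Pool.Agent.R754.KG (E)
open Pool.Agent.N483.KM (LW KMW lw_of)
open Pool.Agent.Y506.RG (EW VW Adm)

section

variable {n : ℕ} {w : E n → ℝ}

theorem lin_bd (ξ : E n →ₗ[ℝ] ℝ) (m : ℝ) : ∃ B : ℝ, 0 ≤ B ∧ ∀ x, (ξ x - m) ^ 2 ≤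
    B * (1 + ‖x‖ ^ 2) := by
  obtain ⟨C, hC⟩ : ∃ C : ℝ, C = ‖LinearMap.toContinuousLinearMap ξ‖ := ⟨_, rfl⟩
  have hC0 : 0 ≤ C := by rw [hC]; exact norm_nonneg _
  refine ⟨2 * C ^ 2 + 2 * m ^ 2, by positivity, fun x => ?_⟩
  have h1 : |ξ x| ≤ C * ‖x‖ := by
    have := (LinearMap.toContinuousLinearMap ξ).le_opNorm x
    rw [← hC] at this
    simpa using this
  have h2 : (ξ x) ^ 2 ≤ C ^ 2 * ‖x‖ ^ 2 := by
    rw [← mul_pow, ← sq_abs (ξ x)]
    exact pow_le_pow_left₀ (abs_nonneg _) h1 2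
  nlinarith [sq_nonneg (ξ x + m), sq_nonneg ‖x‖, mul_nonneg (sq_nonneg m) (sq_nonneg ‖x‖),
    sq_nonneg C]

theorem lin_bd1 (ξ : E n →ₗ[ℝ] ℝ) (m : ℝ) : ∃ B : ℝ, 0 ≤ B ∧ ∀ x, |ξ x - m| ≤
    B * (1 + ‖x‖ ^ 2) := by
  obtain ⟨B, hB0, hB⟩ := lin_bd ξ m
  refine ⟨B + 1, by positivity, fun x => ?_⟩
  have h := hB x
  have h2 : |ξ x - m| ≤ (ξ x - m) ^ 2 + 1 := by
    rw [← sq_abs]
    nlinarith [sq_nonneg (|ξ x - m| - 1), abs_nonneg (ξ x - m)]
  nlinarith [sq_nonneg ‖x‖]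

theorem lin_cont (ξ : E n →ₗ[ℝ] ℝ) : Continuous ξ := ξ.continuous_of_finiteDimensional

theorem aff (hw : Adm w) (ξ : E n →ₗ[ℝ] ℝ) (u : E n) (a : ℝ)
    (h : ∀ x, w x * Real.exp (-a) ≤ Real.sqrt (w (x + u) * w (x - u))) (t : ℝ) (ht : 0 < t) :
    2 * ξ u ≤ t * (1 - Real.exp (-a)) + 2 / t * (VW w ξ + (ξ u) ^ 2) := by
  have hZ := hw.pos
  obtain ⟨Z, hZd⟩ : ∃ Z : ℝ, Z = ∫ x, w x := ⟨_, rfl⟩
  rw [← hZd] at hZ
  obtain ⟨m, hm⟩ : ∃ m : ℝ, m = EW w ξ := ⟨_, rfl⟩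
  have hwi : Integrable w := by
    have := hw.of_bd (fun _ => 1) measurable_const 1 (fun x => by
      rw [abs_one]; nlinarith [sq_nonneg ‖x‖])
    simpa using this
  have hξm : Measurable ξ := (lin_cont ξ).measurable
  have hi1 : ∀ c : ℝ, Integrable fun x => (ξ x - c) * w x := by
    intro c
    obtain ⟨B, hB0, hB⟩ := lin_bd1 ξ c
    exact hw.of_bd (fun x => ξ x - c) (hξm.sub_const c) B hB
  have hi2 : ∀ c : ℝ, Integrable fun x => (ξ x - c) ^ 2 * w x := by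
    intro c
    obtain ⟨B, hB0, hB⟩ := lin_bd ξ c
    exact hw.of_bd (fun x => (ξ x - c) ^ 2) ((hξm.sub_const c).pow_const 2) B (fun x => by
      rw [abs_of_nonneg (sq_nonneg _)]; exact hB x)
  have hi0 : Integrable fun x => ξ x * w x := by simpa using hi1 0
  have hi02 : Integrable fun x => ξ x ^ 2 * w x := by simpa using hi2 0
  -- moments
  have hm1 : ∫ x, ξ x * w x = m * Z := by
    rw [hm]
    unfold EW
    rw [← hZd, div_mul_cancel₀ _ hZ.ne']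
  have hv : ∫ x, ξ x ^ 2 * w x = (VW w ξ + m ^ 2) * Z := by
    unfold VW
    rw [← hm]
    unfold EW
    rw [← hZd]
    field_simp
    ring
  have hA : ∀ s : ℝ, ∫ x, (ξ x - (m - s)) * w x = s * Z := by
    intro s
    have e : (fun x => (ξ x - (m - s)) * w x) = fun x => ξ x * w x - (m - s) * w x := by
      funext x; ring
    rw [e, integral_sub hi0 (hwi.const_mul _), integral_const_mul, hm1, ← hZd]
    ring
  have hB : ∀ s : ℝ, ∫ x, (ξ x - (m - s)) ^ 2 * w x = (VW w ξ + s ^ 2) * Z := by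
    intro s
    have e : (fun x => (ξ x - (m - s)) ^ 2 * w x) =
        fun x => ξ x ^ 2 * w x - 2 * (m - s) * (ξ x * w x) + (m - s) ^ 2 * w x := by
      funext x; ring
    have b1 : ∫ x, (ξ x ^ 2 * w x - 2 * (m - s) * (ξ x * w x) + (m - s) ^ 2 * w x) =
        (∫ x, (ξ x ^ 2 * w x - 2 * (m - s) * (ξ x * w x))) + ∫ x, (m - s) ^ 2 * w x :=
      integral_add (hi02.sub (hi0.const_mul (2 * (m - s)))) (hwi.const_mul ((m - s) ^ 2))
    have b2 : ∫ x, (ξ x ^ 2 * w x - 2 * (m - s) * (ξ x * w x)) =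
        (∫ x, ξ x ^ 2 * w x) - ∫ x, 2 * (m - s) * (ξ x * w x) :=
      integral_sub hi02 (hi0.const_mul (2 * (m - s)))
    rw [e, b1, b2, integral_const_mul, integral_const_mul, hm1, hv, ← hZd]
    ring
  -- translations
  have t1 : ∀ (G : E n → ℝ) (v : E n), ∫ x, G (x - v) = ∫ x, G x := fun G v =>
    integral_sub_right_eq_self G v
  have i1 : ∀ (G : E n → ℝ) (v : E n), Integrable G → Integrable fun x => G (x - v) := fun G v hG =>
    hG.comp_sub_right v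
  -- the six integrals
  have a1 : Integrable (fun x => (ξ x - m) * w (x - u)) ∧
      ∫ x, (ξ x - m) * w (x - u) = ξ u * Z := by
    have e : (fun x => (ξ x - m) * w (x - u)) =
        fun x => (fun y => (ξ y - (m - ξ u)) * w y) (x - u) := by
      funext x
      simp only [map_sub]
      ring
    rw [e]
    exact ⟨i1 _ u (hi1 _), (t1 _ u).trans (hA _)⟩
  have a2 : Integrable (fun x => (ξ x - m) * w (x + u)) ∧
      ∫ x, (ξ x - m) * w (x + u) = -(ξ u * Z) := by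
    have e : (fun x => (ξ x - m) * w (x + u)) =
        fun x => (fun y => (ξ y - (m - (-ξ u))) * w y) (x - (-u)) := by
      funext x
      simp only [map_sub, map_add, map_neg, sub_neg_eq_add]
      ring
    rw [e]
    exact ⟨i1 _ _ (hi1 _), (t1 _ _).trans ((hA _).trans (by ring))⟩
  have a3 : Integrable (fun x => (ξ x - m) ^ 2 * w (x - u)) ∧
      ∫ x, (ξ x - m) ^ 2 * w (x - u) = (VW w ξ + ξ u ^ 2) * Z := by
    have e : (fun x => (ξ x - m) ^ 2 * w (x - u)) =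
        fun x => (fun y => (ξ y - (m - ξ u)) ^ 2 * w y) (x - u) := by
      funext x
      simp only [map_sub]
      ring
    rw [e]
    exact ⟨i1 _ u (hi2 _), (t1 _ u).trans (hB _)⟩
  have a4 : Integrable (fun x => (ξ x - m) ^ 2 * w (x + u)) ∧
      ∫ x, (ξ x - m) ^ 2 * w (x + u) = (VW w ξ + ξ u ^ 2) * Z := by
    have e : (fun x => (ξ x - m) ^ 2 * w (x + u)) =
        fun x => (fun y => (ξ y - (m - (-ξ u))) ^ 2 * w y) (x - (-u)) := by
      funext x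
      simp only [map_sub, map_add, map_neg, sub_neg_eq_add]
      ring
    rw [e]
    refine ⟨i1 _ _ (hi2 _), (t1 _ _).trans ((hB _).trans (by ring))⟩
  have a5 : Integrable (fun x => w (x - u)) ∧ ∫ x, w (x - u) = Z :=
    ⟨i1 _ u hwi, (t1 _ u).trans hZd.symm⟩
  have a6 : Integrable (fun x => w (x + u)) ∧ ∫ x, w (x + u) = Z := by
    have e : (fun x => w (x + u)) = fun x => w (x - (-u)) := by simp
    rw [e]
    exact ⟨i1 _ _ hwi, (t1 _ _).trans hZd.symm⟩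
  have hsm : Measurable fun x => Real.sqrt (w (x + u) * w (x - u)) :=
    ((hw.meas.comp (measurable_id.add_const u)).mul
      (hw.meas.comp (measurable_id.sub_const u))).sqrt
  have hsle : ∀ x, Real.sqrt (w (x + u) * w (x - u)) ≤ w (x - u) + w (x + u) := by
    intro x
    rw [Real.sqrt_le_left (add_nonneg (hw.nonneg _) (hw.nonneg _))]
    nlinarith [hw.nonneg (x + u), hw.nonneg (x - u), mul_nonneg (hw.nonneg (x + u))
      (hw.nonneg (x - u))]
  have a7 : Integrable (fun x => Real.sqrt (w (x + u) * w (x - u))) := by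
    refine Integrable.mono' (a5.1.add a6.1) hsm.aestronglyMeasurable
      (Eventually.of_forall fun x => ?_)
    rw [Real.norm_of_nonneg (Real.sqrt_nonneg _)]
    exact hsle x
  have a8 : Real.exp (-a) * Z ≤ ∫ x, Real.sqrt (w (x + u) * w (x - u)) := by
    rw [hZd, ← integral_const_mul]
    exact integral_mono (hwi.const_mul _) a7 fun x => by
      simp only
      rw [mul_comm]
      exact h x
  -- pointwise
  have hpt : ∀ x, (ξ x - m) * w (x - u) - (ξ x - m) * w (x + u) ≤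
      t / 2 * (w (x - u) + w (x + u) - 2 * Real.sqrt (w (x + u) * w (x - u))) +
        1 / t * ((ξ x - m) ^ 2 * w (x - u) + (ξ x - m) ^ 2 * w (x + u)) := by
    intro x
    obtain ⟨α, hα⟩ : ∃ α, α = Real.sqrt (w (x - u)) := ⟨_, rfl⟩
    obtain ⟨β, hβ⟩ : ∃ β, β = Real.sqrt (w (x + u)) := ⟨_, rfl⟩
    have e1 : w (x - u) = α ^ 2 := by rw [hα, Real.sq_sqrt (hw.nonneg _)]
    have e2 : w (x + u) = β ^ 2 := by rw [hβ, Real.sq_sqrt (hw.nonneg _)]
    have hα0 : 0 ≤ α := by rw [hα]; exact Real.sqrt_nonneg _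
    have hβ0 : 0 ≤ β := by rw [hβ]; exact Real.sqrt_nonneg _
    have e3 : Real.sqrt (w (x + u) * w (x - u)) = β * α := by
      rw [e1, e2, ← mul_pow, Real.sqrt_sq (by positivity)]
    rw [e3, e1, e2]
    obtain ⟨y, hy⟩ : ∃ y, y = ξ x - m := ⟨_, rfl⟩
    rw [← hy]
    have k1 : 0 ≤ (t * (α - β) - y * (α + β)) ^ 2 / (2 * t) := by positivity
    have k2 : 0 ≤ y ^ 2 * (α - β) ^ 2 / (2 * t) := by positivity
    have e4 : t / 2 * (α ^ 2 + β ^ 2 - 2 * (β * α)) + 1 / t * (y ^ 2 * α ^ 2 + y ^ 2 * β ^ 2) -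
        (y * α ^ 2 - y * β ^ 2) = (t * (α - β) - y * (α + β)) ^ 2 / (2 * t) +
          y ^ 2 * (α - β) ^ 2 / (2 * t) := by
      field_simp
      ring
    linarith
  have hint := integral_mono (a1.1.sub a2.1) ((((a5.1.add a6.1).sub (a7.const_mul 2)).const_mul
    (t / 2)).add ((a3.1.add a4.1).const_mul (1 / t))) hpt
  have el : ∫ x, ((ξ x - m) * w (x - u) - (ξ x - m) * w (x + u)) = 2 * ξ u * Z := by
    rw [integral_sub a1.1 a2.1, a1.2, a2.2]
    ring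
  have er : ∫ x, (t / 2 * (w (x - u) + w (x + u) - 2 * Real.sqrt (w (x + u) * w (x - u))) +
        1 / t * ((ξ x - m) ^ 2 * w (x - u) + (ξ x - m) ^ 2 * w (x + u))) =
      t / 2 * (Z + Z - 2 * ∫ x, Real.sqrt (w (x + u) * w (x - u))) +
        1 / t * ((VW w ξ + ξ u ^ 2) * Z + (VW w ξ + ξ u ^ 2) * Z) := by
    have b1 : ∫ x, (t / 2 * (w (x - u) + w (x + u) - 2 * Real.sqrt (w (x + u) * w (x - u))) +
        1 / t * ((ξ x - m) ^ 2 * w (x - u) + (ξ x - m) ^ 2 * w (x + u))) =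
        (∫ x, t / 2 * (w (x - u) + w (x + u) - 2 * Real.sqrt (w (x + u) * w (x - u)))) +
        ∫ x, 1 / t * ((ξ x - m) ^ 2 * w (x - u) + (ξ x - m) ^ 2 * w (x + u)) :=
      integral_add (((a5.1.add a6.1).sub (a7.const_mul 2)).const_mul
        (t / 2)) ((a3.1.add a4.1).const_mul (1 / t))
    have b2 : ∫ x, (w (x - u) + w (x + u) - 2 * Real.sqrt (w (x + u) * w (x - u))) =
        (∫ x, (w (x - u) + w (x + u))) - ∫ x, 2 * Real.sqrt (w (x + u) * w (x - u)) :=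
      integral_sub (a5.1.add a6.1) (a7.const_mul 2)
    rw [b1, integral_const_mul, integral_const_mul, b2, integral_add a5.1 a6.1,
      integral_add a3.1 a4.1, integral_const_mul, a3.2, a4.2, a5.2, a6.2]
  have hfin : 2 * ξ u * Z ≤ t / 2 * (Z + Z - 2 * ∫ x, Real.sqrt (w (x + u) * w (x - u))) +
        1 / t * ((VW w ξ + ξ u ^ 2) * Z + (VW w ξ + ξ u ^ 2) * Z) := by
    rw [← el, ← er]
    exact hint
  have hfin2 : 2 * ξ u * Z ≤ (t * (1 - Real.exp (-a)) + 2 / t * (VW w ξ + (ξ u) ^ 2)) * Z := by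
    have k := mul_le_mul_of_nonneg_left a8 ht.le
    have e : (t * (1 - Real.exp (-a)) + 2 / t * (VW w ξ + (ξ u) ^ 2)) * Z =
        t * Z - t * (Real.exp (-a) * Z) + 1 / t * ((VW w ξ + ξ u ^ 2) * Z +
          (VW w ξ + ξ u ^ 2) * Z) := by ring
    rw [e]
    nlinarith
  exact le_of_mul_le_mul_right hfin2 hZ

/-- lower bound for variances -/
theorem var_lower {F : Type} [NormedAddCommGroup F] [InnerProductSpace ℝ F]
    {L : E n →ₗ[ℝ] F} {V : E n → ℝ} {κ : ℝ} (hw : Adm fun x => Real.exp (-V x))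
    (h2 : ∀ x u : E n, V (x + u) + V (x - u) ≤ 2 * V x + κ * ‖L u‖ ^ 2)
    (ξ : E n →ₗ[ℝ] ℝ) (z : E n) :
    (ξ z) ^ 2 ≤ κ * ‖L z‖ ^ 2 * VW (fun x => Real.exp (-V x)) ξ := by
  obtain ⟨v, hv⟩ : ∃ v, v = VW (fun x => Real.exp (-V x)) ξ := ⟨_, rfl⟩
  rw [← hv]
  have key : ∀ y : E n, ∀ ε τ : ℝ, 0 < ε → 0 < τ →
      2 * ξ y ≤ τ * (κ * ‖L y‖ ^ 2) / 2 + 2 / τ * (v + ε ^ 2 * ξ y ^ 2) := by
    intro y ε τ hε hτ
    have h := aff hw ξ (ε • y) (κ * ‖L (ε • y)‖ ^ 2 / 2) (fun x => by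
      rw [← Real.exp_add, ← Real.exp_add, Real.le_sqrt' (Real.exp_pos _), ← Real.exp_nat_mul]
      refine Real.exp_le_exp.2 ?_
      have := h2 x (ε • y)
      push_cast
      linarith) (τ / ε) (by positivity)
    rw [← hv] at h
    have e1 : ‖L (ε • y)‖ ^ 2 = ε ^ 2 * ‖L y‖ ^ 2 := by
      rw [map_smul, norm_smul, mul_pow, Real.norm_eq_abs, sq_abs]
    rw [e1, map_smul, smul_eq_mul] at h
    have h3 : 1 - Real.exp (-(κ * (ε ^ 2 * ‖L y‖ ^ 2) / 2)) ≤ κ * (ε ^ 2 * ‖L y‖ ^ 2) / 2 := by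
      have := Real.add_one_le_exp (-(κ * (ε ^ 2 * ‖L y‖ ^ 2) / 2))
      linarith
    have h4 : τ / ε * (1 - Real.exp (-(κ * (ε ^ 2 * ‖L y‖ ^ 2) / 2))) ≤
        τ / ε * (κ * (ε ^ 2 * ‖L y‖ ^ 2) / 2) := mul_le_mul_of_nonneg_left h3 (by positivity)
    have h5 : 2 * (ε * ξ y) ≤ ε * (τ * (κ * ‖L y‖ ^ 2) / 2 + 2 / τ * (v + ε ^ 2 * ξ y ^ 2)) := by
      refine (h.trans (add_le_add_left h4 _)).trans (le_of_eq ?_)
      field_simp
    have h6 : ε * (2 * ξ y) ≤ ε * (τ * (κ * ‖L y‖ ^ 2) / 2 + 2 / τ * (v + ε ^ 2 * ξ y ^ 2)) := by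
      linarith
    exact le_of_mul_le_mul_left h6 hε
  have key2 : ∀ y : E n, ∀ τ : ℝ, 0 < τ → 2 * ξ y ≤ τ * (κ * ‖L y‖ ^ 2) / 2 + 2 / τ * v := by
    intro y τ hτ
    have hlim : Tendsto (fun ε : ℝ => τ * (κ * ‖L y‖ ^ 2) / 2 + 2 / τ * (v + ε ^ 2 * ξ y ^ 2))
        (𝓝[>] 0) (𝓝 (τ * (κ * ‖L y‖ ^ 2) / 2 + 2 / τ * (v + 0 ^ 2 * ξ y ^ 2))) := by
      refine (Continuous.tendsto ?_ 0).mono_left nhdsWithin_le_nhds
      fun_prop
    have h := ge_of_tendsto hlim (eventually_nhdsWithin_of_forall fun ε hε => key y ε τ hε hτ)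
    simpa using h
  have key3 : ∀ y : E n, ∀ τ : ℝ, 0 < τ → 4 * ξ y * τ ≤ τ ^ 2 * (κ * ‖L y‖ ^ 2) + 4 * v := by
    intro y τ hτ
    have h := mul_le_mul_of_nonneg_left (key2 y τ hτ) (by positivity : 0 ≤ 2 * τ)
    have e : 2 * τ * (τ * (κ * ‖L y‖ ^ 2) / 2 + 2 / τ * v) = τ ^ 2 * (κ * ‖L y‖ ^ 2) + 4 * v := by
      field_simp
      ring
    linarith
  have key4 : ∀ τ : ℝ, 0 ≤ κ * ‖L z‖ ^ 2 * (τ * τ) + (-(4 * ξ z)) * τ + 4 * v := by
    intro τ
    rcases lt_trichotomy τ 0 with h | h | h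
    · have := key3 (-z) (-τ) (by linarith)
      simp only [map_neg, norm_neg] at this
      nlinarith
    · subst h
      have h0 : 0 ≤ v := by
        have := key3 0 1 one_pos
        simp only [map_zero, norm_zero] at this
        linarith
      linarith
    · have := key3 z τ h
      nlinarith
  have h := discrim_le_zero key4
  unfold discrim at h
  nlinarith

end

end Run7.h444
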