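import Pool.Agent.Run7.h444.WC2

/-!
# Densities with well-conditioned potentials: the inequality for linear images (helper444)
-/

set_option autoImplicit false

namespace Run7.h444

open MeasureTheory Set Filter Topology
open scoped ENNReal InnerProductSpace
open Pool.Agent.R754.KG (E)
open Pool.Agent.N483.KM (LW KMW lw_of)
open Pool.Agent.Y506.RG (EW VW Adm)
open Pool.Agent.H212R2.KLS (Bdd)

section

variable {n : ℕ} {F : Type} [NormedAddCommGroup F] [InnerProductSpace ℝ F]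
  [FiniteDimensional ℝ F] {L : E n →ₗ[ℝ] F} {V : E n → ℝ} {κ : ℝ}

theorem EW_smul (w g : E n → ℝ) (c : ℝ) : EW w (fun x => c * g x) = c * EW w g := by
  unfold EW
  have e : (fun x => c * g x * w x) = fun x => c * (g x * w x) := by funext x; ring
  rw [e, integral_const_mul]
  ring

theorem VW_smul (w g : E n → ℝ) (c : ℝ) : VW w (fun x => c * g x) = c ^ 2 * VW w g := by
  unfold VW
  rw [EW_smul]
  have e : (fun x => (c * g x) ^ 2) = fun x => c ^ 2 * g x ^ 2 := by funext x; ring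
  rw [e, EW_smul]
  ring

theorem VW_zero (w : E n → ℝ) : VW w (fun _ => 0) = 0 := by
  unfold VW EW
  simp

/-- the restriction to a ball -/
noncomputable def wR (w : E n → ℝ) (R : ℝ) : E n → ℝ := (Metric.closedBall 0 R).indicator w

theorem hmid (h1 : ConvexOn ℝ univ fun x => V x - ‖L x‖ ^ 2 / 2) (S : E n ≃L[ℝ] E n)
    (hS : ∀ z, ‖S.symm z‖ = ‖L z‖) (R : ℝ) (x y : E n) :
    wR (fun x => Real.exp (-V x)) R x * wR (fun x => Real.exp (-V x)) R y ≤
      (wR (fun x => Real.exp (-V x)) R ((1 / 2 : ℝ) • (x + y))) ^ 2 *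
      Real.exp (-(‖S.symm (x - y)‖ ^ 2 / 4)) := by
  unfold wR
  by_cases hx : x ∈ Metric.closedBall (0 : E n) R
  swap
  · rw [indicator_of_notMem hx, zero_mul]; positivity
  by_cases hy : y ∈ Metric.closedBall (0 : E n) R
  swap
  · rw [indicator_of_notMem hy, mul_zero]; positivity
  have hm : (1 / 2 : ℝ) • (x + y) ∈ Metric.closedBall (0 : E n) R := by
    have := (convex_closedBall (0 : E n) R) hx hy (by norm_num : (0 : ℝ) ≤ 1 / 2)
      (by norm_num : (0 : ℝ) ≤ 1 / 2) (by norm_num)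
    rwa [← smul_add] at this
  rw [indicator_of_mem hx, indicator_of_mem hy, indicator_of_mem hm, hS, ← Real.exp_add,
    ← Real.exp_nat_mul, ← Real.exp_add]
  refine Real.exp_le_exp.2 ?_
  have h := mid_lower h1 x y
  push_cast
  linarith

theorem grad_bd (hκ : 0 ≤ κ) (hw : Adm fun x => Real.exp (-V x))
    (h2 : ∀ x u : E n, V (x + u) + V (x - u) ≤ 2 * V x + κ * ‖L u‖ ^ 2) (S : E n ≃L[ℝ] E n)
    (hS : ∀ z, ‖S.symm z‖ = ‖L z‖) {k : ℕ} (P : E n →ₗ[ℝ] E k) (s : ℝ) (hs : 0 < s)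
    (hvar : ∀ θ : E k, ‖θ‖ = 1 → VW (fun x => Real.exp (-V x)) (fun x => ⟪P x, θ⟫_ℝ) ≤ s)
    (g : E k →L[ℝ] ℝ) :
    ‖(g.comp (LinearMap.toContinuousLinearMap P)).comp (S : E n →L[ℝ] E n)‖ ^ 2 ≤
      κ * s * ‖g‖ ^ 2 := by
  obtain ⟨v, hv⟩ : ∃ v : E k, v = (InnerProductSpace.toDual ℝ (E k)).symm g := ⟨_, rfl⟩
  have h3 : ∀ y, g y = ⟪v, y⟫_ℝ := fun y => by
    rw [hv, InnerProductSpace.toDual_symm_apply]
  have h4 : ‖v‖ = ‖g‖ := by rw [hv, LinearIsometryEquiv.norm_map]
  have h5 : VW (fun x => Real.exp (-V x)) (fun x => g (P x)) ≤ s * ‖g‖ ^ 2 := by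
    by_cases hv0 : v = 0
    · have e : (fun x => g (P x)) = fun _ => 0 := by
        funext x
        rw [h3, hv0, inner_zero_left]
      rw [e, VW_zero]
      positivity
    · have hn : ‖v‖ ≠ 0 := norm_ne_zero_iff.2 hv0
      have h6 := hvar (‖v‖⁻¹ • v) (by rw [norm_smul, norm_inv, norm_norm, inv_mul_cancel₀ hn])
      have e : (fun x => g (P x)) = fun x => ‖v‖ * ⟪P x, ‖v‖⁻¹ • v⟫_ℝ := by
        funext x
        rw [h3, inner_smul_right, real_inner_comm, ← mul_assoc, mul_inv_cancel₀ hn, one_mul]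
      rw [e, VW_smul, ← h4]
      nlinarith [sq_nonneg ‖v‖]
  have h6 : ∀ z, (g (P (S z))) ^ 2 ≤ κ * s * ‖g‖ ^ 2 * ‖z‖ ^ 2 := by
    intro z
    have h7 := var_lower hw h2 (g.toLinearMap ∘ₗ P) (S z)
    rw [← hS, ContinuousLinearEquiv.symm_apply_apply] at h7
    have h8 : κ * ‖z‖ ^ 2 * VW (fun x => Real.exp (-V x)) (g.toLinearMap ∘ₗ P) ≤
        κ * ‖z‖ ^ 2 * (s * ‖g‖ ^ 2) := mul_le_mul_of_nonneg_left h5 (by positivity)
    refine (h7.trans h8).trans (le_of_eq (by ring))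
  have h7 : ‖(g.comp (LinearMap.toContinuousLinearMap P)).comp (S : E n →L[ℝ] E n)‖ ≤
      Real.sqrt (κ * s * ‖g‖ ^ 2) := by
    refine ContinuousLinearMap.opNorm_le_bound _ (Real.sqrt_nonneg _) fun z => ?_
    rw [Real.norm_eq_abs]
    refine Real.abs_le_sqrt ?_ |>.trans (le_of_eq ?_) (b := Real.sqrt (κ * s * ‖g‖ ^ 2 * ‖z‖ ^ 2))
    · exact h6 z
    · rw [Real.sqrt_mul (by positivity), Real.sqrt_sq (norm_nonneg _)]
  calc _ ≤ (Real.sqrt (κ * s * ‖g‖ ^ 2)) ^ 2 := pow_le_pow_left₀ (norm_nonneg _) h7 2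
    _ = _ := Real.sq_sqrt (by positivity)

theorem wR_tend {w : E n → ℝ} (G : E n → ℝ) (hG : Integrable fun x => G x * w x) :
    Tendsto (fun N : ℕ => ∫ x, G x * wR w N x) atTop (𝓝 (∫ x, G x * w x)) := by
  have e : ∀ N : ℕ, (fun x => G x * wR w N x) =
      (Metric.closedBall 0 (N : ℝ)).indicator fun x => G x * w x := by
    intro N
    funext x
    unfold wR
    by_cases hx : x ∈ Metric.closedBall (0 : E n) (N : ℝ)
    · rw [indicator_of_mem hx, indicator_of_mem hx]
    · rw [indicator_of_notMem hx, indicator_of_notMem hx, mul_zero]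
  simp only [e]
  refine tendsto_integral_of_dominated_convergence (fun x => ‖G x * w x‖)
    (fun N => hG.aestronglyMeasurable.indicator Metric.isClosed_closedBall.measurableSet)
    hG.norm (fun N => Eventually.of_forall fun x => ?_) (Eventually.of_forall fun x => ?_)
  · exact norm_indicator_le_norm_self _ _
  · refine tendsto_const_nhds.congr' ?_
    obtain ⟨N, hN⟩ := exists_nat_ge ‖x‖
    filter_upwards [eventually_ge_atTop N] with M hM
    rw [indicator_of_mem]
    rw [mem_closedBall_zero_iff]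
    exact hN.trans (by exact_mod_cast hM)

theorem wR_int {w : E n → ℝ} (G : E n → ℝ) (hG : Integrable fun x => G x * w x) (R : ℝ) :
    Integrable fun x => G x * wR w R x := by
  have e : (fun x => G x * wR w R x) =
      (Metric.closedBall 0 R).indicator fun x => G x * w x := by
    funext x
    unfold wR
    by_cases hx : x ∈ Metric.closedBall (0 : E n) R
    · rw [indicator_of_mem hx, indicator_of_mem hx]
    · rw [indicator_of_notMem hx, indicator_of_notMem hx, mul_zero]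
  rw [e]
  exact hG.indicator Metric.isClosed_closedBall.measurableSet

/-- the inequality for all linear images -/
theorem kmw (hκ : 0 ≤ κ) (hL : Function.Injective L)
    (h1 : ConvexOn ℝ univ fun x => V x - ‖L x‖ ^ 2 / 2)
    (h2 : ConvexOn ℝ univ fun x => κ * (‖L x‖ ^ 2 / 2) - V x) (δ : ℝ) (hδ : 0 ≤ δ) :
    KMW κ δ fun x => Real.exp (-V x) := by
  intro k P s hs hvar v C hv hv1 hvl
  obtain ⟨w, hw'⟩ : ∃ w : E n → ℝ, w = fun x => Real.exp (-V x) := ⟨_, rfl⟩
  have hLW := lw hL h1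
  have hA : Adm w := by rw [hw']; exact hLW.adm
  obtain ⟨B, hB⟩ := hLW.bdd
  have h2' : ∀ x u : E n, V (x + u) + V (x - u) ≤ 2 * V x + κ * ‖L u‖ ^ 2 := by
    intro x u
    have h := mid_upper h2 (x + u) (x - u)
    have e1 : (1 / 2 : ℝ) • (x + u + (x - u)) = x := by
      rw [add_add_sub_cancel, ← two_smul ℝ x, smul_smul]; norm_num
    have e2 : x + u - (x - u) = (2 : ℝ) • u := by rw [two_smul]; abel
    rw [e1, e2, map_smul, norm_smul, mul_pow] at h
    have e3 : ‖(2 : ℝ)‖ ^ 2 = 4 := by norm_num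
    rw [e3] at h
    linarith
  obtain ⟨S, hS⟩ := exists_S L hL
  obtain ⟨f, hf⟩ : ∃ f : E n → ℝ, f = fun x => v (P x) := ⟨_, rfl⟩
  have hPc : Continuous P := P.continuous_of_finiteDimensional
  have hfc : ContDiff ℝ 1 f := by
    rw [hf]
    exact hv.comp (LinearMap.toContinuousLinearMap P).contDiff
  have hfd : ∀ x, fderiv ℝ f x =
      (fderiv ℝ v (P x)).comp (LinearMap.toContinuousLinearMap P) := by
    intro x
    rw [hf]
    have h3 : HasFDerivAt (fun x => v (P x)) ((fderiv ℝ v (P x)).comp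
        (LinearMap.toContinuousLinearMap P)) x :=
      HasFDerivAt.comp x (hv.differentiable (by norm_num) (P x)).hasFDerivAt
        (LinearMap.toContinuousLinearMap P).hasFDerivAt
    exact h3.fderiv
  have hgb : ∀ x, ‖(fderiv ℝ f x).comp (S : E n →L[ℝ] E n)‖ ^ 2 ≤
      κ * s * ‖fderiv ℝ v (P x)‖ ^ 2 := by
    intro x
    rw [hfd]
    exact grad_bd hκ hLW.adm h2' S hS P s hs hvar _
  have hwi : Integrable fun x => (1 : ℝ) * w x := hA.of_bd _ measurable_const 1 fun x => by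
    rw [abs_one]; nlinarith [sq_nonneg ‖x‖]
  have hf1i : Integrable fun x => f x * w x := hA.of_bd _ hfc.continuous.measurable 1 fun x => by
    rw [hf]; nlinarith [hv1 (P x), sq_nonneg ‖x‖]
  have hf2i : Integrable fun x => f x ^ 2 * w x :=
    hA.of_bd _ (hfc.continuous.measurable.pow_const 2) 1 fun x => by
      rw [hf, abs_pow]
      have : |v (P x)| ^ 2 ≤ 1 := pow_le_one₀ (abs_nonneg _) (hv1 _)
      nlinarith [sq_nonneg ‖x‖]
  have hdc : Continuous fun x => ‖fderiv ℝ v (P x)‖ ^ 2 :=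
    ((hv.continuous_fderiv (by norm_num)).comp hPc).norm.pow 2
  have hdi : Integrable fun x => ‖fderiv ℝ v (P x)‖ ^ 2 * w x :=
    hA.of_bd _ hdc.measurable (C ^ 2) fun x => by
      rw [abs_of_nonneg (sq_nonneg _)]
      have : ‖fderiv ℝ v (P x)‖ ^ 2 ≤ C ^ 2 := pow_le_pow_left₀ (norm_nonneg _) (hvl _) 2
      nlinarith [sq_nonneg ‖x‖, mul_nonneg (sq_nonneg C) (sq_nonneg ‖x‖)]
  obtain ⟨D, hD⟩ : ∃ D, D = κ * s * ∫ x, ‖fderiv ℝ v (P x)‖ ^ 2 * w x := ⟨_, rfl⟩
  have hwp : ∀ x, 0 < w x := fun x => by rw [hw']; exact Real.exp_pos _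
  have hwc : Continuous w := by rw [hw']; exact (V_cont h1).neg.rexp
  have hstep : ∀ N : ℕ, 1 ≤ N → (∫ x, f x ^ 2 * wR w N x) -
      (∫ x, f x * wR w N x) ^ 2 / (∫ x, 1 * wR w N x) ≤ D := by
    intro N hN
    have hN0 : (0 : ℝ) < N := by exact_mod_cast hN
    obtain ⟨c, hc⟩ := Pool.Agent.H888R2.KT.bl_lin (wR w N)
      (fun x => indicator_nonneg (fun x _ => (hwp x).le) x)
      (hwc.measurable.indicator Metric.isClosed_closedBall.measurableSet)
      ⟨B, fun x => (indicator_le_self' (fun x _ => (hwp x).le) x).trans (by rw [hw']; exact hB x)⟩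
      ⟨N, fun x hx => indicator_of_notMem (fun h => by
        rw [mem_closedBall_zero_iff] at h
        linarith) _⟩ S (by rw [hw']; exact hmid h1 S hS N) f hfc
    have hZ : 0 < ∫ x, 1 * wR w N x := by
      have e9 : (fun x => 1 * wR w N x) = (Metric.closedBall (0 : E n) (N : ℝ)).indicator w := by
        funext x
        rw [one_mul]
        rfl
      rw [e9, integral_indicator Metric.isClosed_closedBall.measurableSet]
      have hwi' : IntegrableOn w (Metric.closedBall (0 : E n) (N : ℝ)) := by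
        have : Integrable w := by simpa using hwi
        exact this.integrableOn
      rw [setIntegral_pos_iff_support_of_nonneg_ae (Eventually.of_forall fun x => (hwp x).le) hwi']
      have e10 : Function.support w = univ := by
        ext z
        simp [(hwp z).ne']
      rw [e10, univ_inter]
      exact Metric.measure_closedBall_pos volume 0 hN0
    have i0 := wR_int _ hwi (N : ℝ)
    have i1 := wR_int _ hf1i (N : ℝ)
    have i2 := wR_int _ hf2i (N : ℝ)
    have i3 := wR_int _ hdi (N : ℝ)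
    have e1 : ∫ x, (f x - c) ^ 2 * wR w N x = (∫ x, f x ^ 2 * wR w N x) -
        2 * c * (∫ x, f x * wR w N x) + c ^ 2 * ∫ x, 1 * wR w N x := by
      have e : (fun x => (f x - c) ^ 2 * wR w N x) = fun x => f x ^ 2 * wR w N x -
          2 * c * (f x * wR w N x) + c ^ 2 * (1 * wR w N x) := by funext x; ring
      have b1 : ∫ x, (f x ^ 2 * wR w N x - 2 * c * (f x * wR w N x) + c ^ 2 * (1 * wR w N x)) =
          (∫ x, (f x ^ 2 * wR w N x - 2 * c * (f x * wR w N x))) +
            ∫ x, c ^ 2 * (1 * wR w N x) :=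
        integral_add (i2.sub (i1.const_mul (2 * c))) (i0.const_mul (c ^ 2))
      have b2 : ∫ x, (f x ^ 2 * wR w N x - 2 * c * (f x * wR w N x)) =
          (∫ x, f x ^ 2 * wR w N x) - ∫ x, 2 * c * (f x * wR w N x) :=
        integral_sub i2 (i1.const_mul (2 * c))
      rw [e, b1, b2, integral_const_mul, integral_const_mul]
    have e2 : ∫ x, ‖(fderiv ℝ f x).comp (S : E n →L[ℝ] E n)‖ ^ 2 * wR w N x ≤ D := by
      rw [hD, ← integral_const_mul]
      refine integral_mono_of_nonneg (Eventually.of_forall fun x => ?_) (hdi.const_mul _)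
        (Eventually.of_forall fun x => ?_)
      · exact mul_nonneg (sq_nonneg _) (indicator_nonneg (fun x _ => (hwp x).le) x)
      · have h3 := hgb x
        have h4 : wR w N x ≤ w x := indicator_le_self' (fun x _ => (hwp x).le) x
        have h5 : 0 ≤ wR w N x := indicator_nonneg (fun x _ => (hwp x).le) x
        calc _ ≤ κ * s * ‖fderiv ℝ v (P x)‖ ^ 2 * wR w N x := mul_le_mul_of_nonneg_right h3 h5
          _ ≤ κ * s * ‖fderiv ℝ v (P x)‖ ^ 2 * w x := mul_le_mul_of_nonneg_left h4 (by positivity)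
          _ = _ := by ring
    obtain ⟨Z, hZd⟩ : ∃ Z, Z = ∫ x, 1 * wR w N x := ⟨_, rfl⟩
    obtain ⟨a, ha⟩ : ∃ a, a = ∫ x, f x * wR w N x := ⟨_, rfl⟩
    rw [← hZd] at hZ e1 ⊢
    rw [← ha] at e1 ⊢
    have h6 : 0 ≤ (a - c * Z) ^ 2 / Z := by positivity
    have e3 : (a - c * Z) ^ 2 / Z = a ^ 2 / Z - 2 * c * a + c ^ 2 * Z := by
      field_simp
      ring
    linarith
  have t0 := wR_tend (w := w) (fun _ => 1) hwi
  have t1 := wR_tend (w := w) f hf1i
  have t2 := wR_tend (w := w) (fun x => f x ^ 2) hf2i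
  have hZ : 0 < ∫ x, 1 * w x := by simpa using hA.pos
  have hlim := le_of_tendsto (t2.sub ((t1.pow 2).div t0 hZ.ne'))
    ((eventually_ge_atTop 1).mono fun N hN => hstep N hN)
  have hvw : VW w f ≤ κ * s * EW w fun x => ‖fderiv ℝ v (P x)‖ ^ 2 := by
    unfold VW EW
    simp only [one_mul] at hlim hZ
    rw [hD] at hlim
    obtain ⟨Z, hZd⟩ : ∃ Z, Z = ∫ x, w x := ⟨_, rfl⟩
    obtain ⟨a, ha⟩ : ∃ a, a = ∫ x, f x * w x := ⟨_, rfl⟩
    obtain ⟨b, hb⟩ : ∃ b, b = ∫ x, f x ^ 2 * w x := ⟨_, rfl⟩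
    obtain ⟨d, hd⟩ : ∃ d, d = ∫ x, ‖fderiv ℝ v (P x)‖ ^ 2 * w x := ⟨_, rfl⟩
    rw [← hZd] at hlim hZ ⊢
    rw [← ha, ← hb, ← hd] at hlim
    rw [← ha, ← hb, ← hd]
    have e : κ * s * (d / Z) - (b / Z - (a / Z) ^ 2) = (κ * s * d - (b - a ^ 2 / Z)) / Z := by
      field_simp
    have := div_nonneg (sub_nonneg.2 hlim) hZ.le
    linarith
  have e : (fun x => v (P x)) = f := hf.symm
  rw [← hw', e]
  linarith

end

end Run7.h444
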