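import Pool.Agent.Run7.h444.WC3

/-!
# Level sets of well-conditioned functions (helper444)
-/

set_option autoImplicit false

namespace Run7.h444

open MeasureTheory Set Filter Topology
open scoped ENNReal InnerProductSpace
open Pool.Agent.R754.KG (E)
open Pool.Agent.N483.KM (LW KMW lw_of Micro gw)
open Pool.Agent.Y506.RG (EW VW Adm)

section

variable {m r : ℕ} {k : Fin r → ℕ} {κ : ℝ}

/-- `K = {x | S_j x ≤ e_j}` with `S_j ≥ 0` and `S_j - ‖A_j x‖²/2`, `κ ‖A_j x‖²/2 - S_j` convex -/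
structure CL (κ : ℝ) (S : Fin r → E m → ℝ) (A : ∀ j, E m →ₗ[ℝ] E (k j)) (e : Fin r → ℝ)
    (K : Set (E m)) : Prop where
  low : ∀ j, ConvexOn ℝ univ fun x => S j x - ‖A j x‖ ^ 2 / 2
  up : ∀ j, ConvexOn ℝ univ fun x => κ * (‖A j x‖ ^ 2 / 2) - S j x
  nn : ∀ j x, 0 ≤ S j x
  bdd : Bornology.IsBounded K
  strict : ∃ x, ∀ j, S j x < e j
  eq : K = {x | ∀ j, S j x ≤ e j}

theorem CL.conv {S : Fin r → E m → ℝ} {A : ∀ j, E m →ₗ[ℝ] E (k j)} {e : Fin r → ℝ} {K : Set (E m)}
    (h : CL κ S A e K) (j : Fin r) : ConvexOn ℝ univ (S j) := V_conv (h.low j)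

theorem CL.all_bdd {S : Fin r → E m → ℝ} {A : ∀ j, E m →ₗ[ℝ] E (k j)} {e : Fin r → ℝ}
    {K : Set (E m)} (h : CL κ S A e K) (s : Fin r → ℝ) :
    Bornology.IsBounded {z : E m | ∀ j, S j z ≤ s j} := by
  obtain ⟨x0, hx0⟩ := h.strict
  obtain ⟨R, hR⟩ := h.bdd.exists_norm_le
  -- a common step
  obtain ⟨t, ht0, ht1, ht⟩ : ∃ t : ℝ, 0 < t ∧ t ≤ 1 ∧ ∀ j, t * (s j - S j x0) ≤ e j - S j x0 := by
    rcases isEmpty_or_nonempty (Fin r) with he | hne
    · exact ⟨1, one_pos, le_rfl, fun j => (he.false j).elim⟩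
    · obtain ⟨a, ha⟩ : ∃ a, a = Finset.univ.inf' Finset.univ_nonempty fun j => e j - S j x0 :=
        ⟨_, rfl⟩
      obtain ⟨b, hb⟩ : ∃ b, b = Finset.univ.sup' Finset.univ_nonempty fun j => |s j - S j x0| :=
        ⟨_, rfl⟩
      have ha0 : 0 < a := by
        rw [ha, Finset.lt_inf'_iff]
        intro j _
        linarith [hx0 j]
      have hb0 : 0 ≤ b := by
        obtain ⟨j⟩ := hne
        rw [hb]
        exact (abs_nonneg _).trans (Finset.le_sup' (fun j => |s j - S j x0|) (Finset.mem_univ j))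
      refine ⟨min 1 (a / (b + 1)), lt_min one_pos (by positivity), min_le_left _ _, fun j => ?_⟩
      have h1 : s j - S j x0 ≤ b := (le_abs_self _).trans (by
        rw [hb]
        exact Finset.le_sup' (fun j => |s j - S j x0|) (Finset.mem_univ j))
      have h2 : a ≤ e j - S j x0 := by
        rw [ha]
        exact Finset.inf'_le (fun j => e j - S j x0) (Finset.mem_univ j)
      have h3 : min 1 (a / (b + 1)) * b ≤ a := by
        have h4 : min 1 (a / (b + 1)) * b ≤ a / (b + 1) * b :=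
          mul_le_mul_of_nonneg_right (min_le_right _ _) hb0
        refine h4.trans ?_
        rw [div_mul_eq_mul_div, div_le_iff₀ (by positivity)]
        nlinarith
      have h5 : min 1 (a / (b + 1)) * (s j - S j x0) ≤ min 1 (a / (b + 1)) * b :=
        mul_le_mul_of_nonneg_left h1 (le_min zero_le_one (by positivity))
      linarith
  rw [isBounded_iff_forall_norm_le]
  refine ⟨(R + ‖x0‖) / t + ‖x0‖, fun z hz => ?_⟩
  have hmem : (1 - t) • x0 + t • z ∈ K := by
    rw [h.eq]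
    intro j
    have h6 := (h.conv j).2 (mem_univ x0) (mem_univ z) (by linarith : 0 ≤ 1 - t) ht0.le (by ring)
    simp only [smul_eq_mul] at h6
    have h7 := ht j
    have h8 : t * S j z ≤ t * s j := mul_le_mul_of_nonneg_left (hz j) ht0.le
    linarith
  have h9 := hR _ hmem
  have h10 : t • (z - x0) = ((1 - t) • x0 + t • z) - x0 := by
    rw [smul_sub, sub_smul, one_smul]
    abel
  have h11 : t * ‖z - x0‖ ≤ R + ‖x0‖ := by
    have : ‖t • (z - x0)‖ ≤ R + ‖x0‖ := by
      rw [h10]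
      exact (norm_sub_le _ _).trans (by linarith)
    rwa [norm_smul, Real.norm_of_nonneg ht0.le] at this
  have h12 : ‖z - x0‖ ≤ (R + ‖x0‖) / t := by
    rw [le_div_iff₀ ht0]
    linarith
  have h13 : ‖z‖ ≤ ‖z - x0‖ + ‖x0‖ := by
    have := norm_add_le (z - x0) x0
    rwa [sub_add_cancel] at this
  linarith

/-- no common kernel -/
theorem CL.ker {S : Fin r → E m → ℝ} {A : ∀ j, E m →ₗ[ℝ] E (k j)} {e : Fin r → ℝ}
    {K : Set (E m)} (h : CL κ S A e K) (z : E m) (hz : ∀ j, A j z = 0) : z = 0 := by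
  obtain ⟨x0, hx0⟩ := h.strict
  obtain ⟨R, hR⟩ := h.bdd.exists_norm_le
  have hA : ∀ j (t : ℝ), A j (x0 + t • z) = A j x0 := by
    intro j t
    rw [map_add, map_smul, hz, smul_zero, add_zero]
  have hconst : ∀ j (t : ℝ), S j (x0 + t • z) ≤ S j x0 := by
    intro j t
    -- `g s = S (x0 + s z)` is affine and nonnegative
    obtain ⟨g, hg⟩ : ∃ g : ℝ → ℝ, ∀ s, g s = S j (x0 + s • z) := ⟨fun s => S j (x0 + s • z),
      fun s => rfl⟩
    have haff : ∀ a b θ : ℝ, 0 ≤ θ → θ ≤ 1 → g ((1 - θ) * a + θ * b) =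
        (1 - θ) * g a + θ * g b := by
      intro a b θ h0 h1
      have epoint : (1 - θ) • (x0 + a • z) + θ • (x0 + b • z) = x0 + ((1 - θ) * a + θ * b) • z := by
        rw [smul_add, smul_add, smul_smul, smul_smul, add_smul, sub_smul, one_smul]
        abel
      have l := (h.low j).2 (mem_univ (x0 + a • z)) (mem_univ (x0 + b • z))
        (by linarith : 0 ≤ 1 - θ) h0 (by ring)
      have u := (h.up j).2 (mem_univ (x0 + a • z)) (mem_univ (x0 + b • z))
        (by linarith : 0 ≤ 1 - θ) h0 (by ring)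
      rw [epoint] at l u
      simp only [hA, smul_eq_mul] at l u
      rw [hg, hg, hg]
      apply le_antisymm
      · nlinarith
      · nlinarith
    have hg0 : ∀ s, 0 ≤ g s := fun s => by rw [hg]; exact h.nn j _
    -- if `g t > g 0`, then `g` is negative at a point on the other side
    by_contra hlt
    rw [not_le] at hlt
    have hgt : g 0 < g t := by
      rw [hg, hg, zero_smul, add_zero]
      exact hlt
    obtain ⟨M, hM⟩ : ∃ M : ℝ, 0 < M ∧ g 0 < M * (g t - g 0) := by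
      obtain ⟨N, hN⟩ := exists_nat_gt (g 0 / (g t - g 0))
      refine ⟨N + 1, by positivity, ?_⟩
      rw [div_lt_iff₀ (by linarith)] at hN
      nlinarith
    obtain ⟨hM0, hM1⟩ := hM
    -- `0 = (1 - θ) (-M t) + θ t` with `θ = M / (M + 1)`
    have h2 := haff (-(M * t)) t (M / (M + 1)) (by positivity) (by
      rw [div_le_one (by positivity)]; linarith)
    have e1 : (1 - M / (M + 1)) * (-(M * t)) + M / (M + 1) * t = 0 := by
      field_simp
      ring
    rw [e1] at h2
    have h3 := hg0 (-(M * t))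
    have h4 : (M + 1) * g 0 = g (-(M * t)) + M * g t := by
      rw [h2]
      field_simp
      ring
    nlinarith
  by_contra hz0
  have hn : 0 < ‖z‖ := norm_pos_iff.2 hz0
  have hmem : x0 + ((R + ‖x0‖ + 1) / ‖z‖) • z ∈ K := by
    rw [h.eq]
    intro j
    exact (hconst j _).trans (hx0 j).le
  have h5 := hR _ hmem
  have h6 : ‖((R + ‖x0‖ + 1) / ‖z‖) • z‖ ≤ R + ‖x0‖ := by
    have e1 : ((R + ‖x0‖ + 1) / ‖z‖) • z = (x0 + ((R + ‖x0‖ + 1) / ‖z‖) • z) - x0 := by abel
    rw [e1]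
    exact (norm_sub_le _ _).trans (by linarith)
  rw [norm_smul, norm_div, norm_norm, div_mul_cancel₀ _ hn.ne'] at h6
  have h7 := (le_abs_self (R + ‖x0‖ + 1)).trans h6
  linarith

theorem CL.micro {S : Fin r → E m → ℝ} {A : ∀ j, E m →ₗ[ℝ] E (k j)} {e : Fin r → ℝ}
    {K : Set (E m)} (h : CL κ S A e K) (hκ : 0 ≤ κ) (hm : 1 ≤ m) :
    Micro (fun _ => κ) r 0 m K := by
  obtain ⟨ψ, hψ⟩ : ∃ ψ : (E m × E 0) ≃ₗ[ℝ] E m, ∀ x, ψ (x, 0) = x := by
    refine ⟨LinearEquiv.ofBijective (LinearMap.fst ℝ (E m) (E 0)) ⟨fun p q hpq => ?_, fun x =>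
      ⟨(x, 0), rfl⟩⟩, fun x => rfl⟩
    exact Prod.ext hpq (Subsingleton.elim _ _)
  refine ⟨hm, m, ψ, S, e, h.conv, h.nn, h.all_bdd, ?_, fun l a hl => ?_, ?_⟩
  · obtain ⟨x, hx⟩ := h.strict
    exact ⟨x, fun j => by rw [hψ]; exact hx j⟩
  · obtain ⟨L, hL⟩ : ∃ L : E m →ₗ[ℝ] PiLp 2 (fun j => E (k j)), ∀ z j,
        L z j = Real.sqrt (l j) • A j z :=
      ⟨(WithLp.linearEquiv 2 ℝ (∀ j, E (k j))).symm.toLinearMap ∘ₗ
        LinearMap.pi fun j => Real.sqrt (l j) • A j, fun z j => rfl⟩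
    have hLn : ∀ z, ‖L z‖ ^ 2 = ∑ j, l j * ‖A j z‖ ^ 2 := by
      intro z
      rw [PiLp.norm_sq_eq_of_L2]
      refine Finset.sum_congr rfl fun j _ => ?_
      rw [hL, norm_smul, mul_pow, Real.norm_of_nonneg (Real.sqrt_nonneg _), Real.sq_sqrt (hl j).le]
    have hinj : Function.Injective L := by
      rw [injective_iff_map_eq_zero]
      intro z hz
      refine h.ker z fun j => ?_
      have h1 := hL z j
      rw [hz] at h1
      have h2 : Real.sqrt (l j) • A j z = 0 := h1.symm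
      exact (smul_eq_zero.1 h2).resolve_left (Real.sqrt_pos.2 (hl j)).ne'
    have hgw : gw ψ S l a = fun x => Real.exp (-(∑ j, l j * S j x)) := by
      funext x
      unfold gw
      congr 1
      have : ⟪a, (ψ.symm x).2⟫_ℝ = 0 := by
        rw [Subsingleton.elim a 0, inner_zero_left]
      rw [this]
      ring
    have hc1 : ConvexOn ℝ univ fun x => (∑ j, l j * S j x) - ‖L x‖ ^ 2 / 2 := by
      have e1 : (fun x => (∑ j, l j * S j x) - ‖L x‖ ^ 2 / 2) =
          fun x => ∑ j, l j * (S j x - ‖A j x‖ ^ 2 / 2) := by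
        funext x
        rw [hLn, Finset.sum_div, ← Finset.sum_sub_distrib]
        refine Finset.sum_congr rfl fun j _ => ?_
        ring
      rw [e1]
      refine ⟨convex_univ, fun x _ y _ a b ha hb hab => ?_⟩
      simp only [smul_eq_mul]
      rw [Finset.mul_sum, Finset.mul_sum, ← Finset.sum_add_distrib]
      refine Finset.sum_le_sum fun j _ => ?_
      have h2 := (h.low j).2 (mem_univ x) (mem_univ y) ha hb hab
      simp only [smul_eq_mul] at h2
      have h3 := mul_le_mul_of_nonneg_left h2 (hl j).le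
      linarith
    have hc2 : ConvexOn ℝ univ fun x => κ * (‖L x‖ ^ 2 / 2) - ∑ j, l j * S j x := by
      have e1 : (fun x => κ * (‖L x‖ ^ 2 / 2) - ∑ j, l j * S j x) =
          fun x => ∑ j, l j * (κ * (‖A j x‖ ^ 2 / 2) - S j x) := by
        funext x
        rw [hLn, Finset.sum_div, Finset.mul_sum, ← Finset.sum_sub_distrib]
        refine Finset.sum_congr rfl fun j _ => ?_
        ring
      rw [e1]
      refine ⟨convex_univ, fun x _ y _ a b ha hb hab => ?_⟩
      simp only [smul_eq_mul]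
      rw [Finset.mul_sum, Finset.mul_sum, ← Finset.sum_add_distrib]
      refine Finset.sum_le_sum fun j _ => ?_
      have h2 := (h.up j).2 (mem_univ x) (mem_univ y) ha hb hab
      simp only [smul_eq_mul] at h2
      have h3 := mul_le_mul_of_nonneg_left h2 (hl j).le
      linarith
    rw [hgw]
    exact ⟨(lw hinj hc1).adm, fun δ hδ => kmw hκ hinj hc1 hc2 δ hδ.le⟩
  · rw [h.eq]
    simp only [hψ]

end

end Run7.h444
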